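import Pool.Agent.TH333.UP.Dom
set_option autoImplicit false

/-!
The hypersurfaces are smooth at all points with nonvanishing coordinates, if the absolute value of
`λ` is very large or very small.
-/

namespace Pool.Agent.TH333.UP

section uniform

variable {K : Type*} [Field K] {n : ℕ} (lam : K) (D : Dat K n)

/-- the polynomials in one variable on the left hand side of the equation -/
noncomputable def gp : Fin (n + 1) → Polynomial K :=
  Fin.cons ((Polynomial.X - Polynomial.C D.al) * (Polynomial.X - Polynomial.C D.be))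
    fun j => ∏ i, (Polynomial.X - Polynomial.C (D.a j i))

/-- the exponents on the right hand side of the equation -/
def mp : Fin (n + 1) → ℕ := Fin.cons 1 D.m

theorem ueqn_eq : ueqn lam D =
    ∏ j, Polynomial.aeval (MvPolynomial.X j : MvPolynomial (Fin (n + 1)) K) (gp D j) -
    MvPolynomial.C lam * ∏ j, Polynomial.aeval (MvPolynomial.X j : MvPolynomial (Fin (n + 1)) K)
      (Polynomial.X ^ mp D j : Polynomial K) := by
  unfold ueqn ufac gp mp
  rw [Fin.prod_univ_succ, Fin.prod_univ_succ]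
  simp only [Fin.cons_zero, Fin.cons_succ, map_mul, map_sub, map_prod, map_pow,
    Polynomial.aeval_X, Polynomial.aeval_C, pow_one]
  rfl

theorem pderiv_prod_aeval (f : Fin (n + 1) → Polynomial K) (j : Fin (n + 1)) :
    MvPolynomial.pderiv j (∏ i, Polynomial.aeval (MvPolynomial.X i : MvPolynomial (Fin (n + 1)) K)
      (f i)) = Polynomial.aeval (MvPolynomial.X j) (Polynomial.derivative (f j)) *
      ∏ i ∈ Finset.univ.erase j, Polynomial.aeval (MvPolynomial.X i) (f i) := by
  rw [← Finset.mul_prod_erase Finset.univ _ (Finset.mem_univ j), Derivation.leibniz,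
    Pool.Agent.TH333.CY.pderiv_prod_eq_zero _ _ _ fun i hi => by
      rw [Derivation.map_aeval, MvPolynomial.pderiv_X_of_ne (Finset.ne_of_mem_erase hi), smul_zero],
    Derivation.map_aeval, MvPolynomial.pderiv_X_self]
  simp only [smul_eq_mul]
  ring

theorem eval_aeval (σ : K →+* ℂ) (p : Fin (n + 1) → ℂ) (f : Polynomial K) (j : Fin (n + 1)) :
    MvPolynomial.eval₂Hom σ p (Polynomial.aeval (MvPolynomial.X j) f) = f.eval₂ σ (p j) := by
  rw [Polynomial.aeval_def, Polynomial.hom_eval₂]
  congr 1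
  · ext x
    show MvPolynomial.eval₂Hom σ p (algebraMap K (MvPolynomial (Fin (n + 1)) K) x) = σ x
    rw [MvPolynomial.algebraMap_eq]
    simp
  · simp

end uniform

section bound

open Polynomial

theorem exists_bound (f : ℂ[X]) (M : ℕ) (hf : X * derivative f - C (M : ℂ) * f ≠ 0) :
    ∃ C1 : ℝ, 0 ≤ C1 ∧ ∀ z : ℂ, z * (derivative f).eval z = M * f.eval z →
      |Real.log ‖f.eval z‖ - M * Real.log ‖z‖| ≤ C1 := by
  classical
  set T := (X * derivative f - C (M : ℂ) * f).roots.toFinset with hT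
  refine ⟨∑ z ∈ T, |Real.log ‖f.eval z‖ - M * Real.log ‖z‖|,
    Finset.sum_nonneg fun _ _ => abs_nonneg _, fun z hz => ?_⟩
  have hmem : z ∈ T := by
    rw [hT, Multiset.mem_toFinset, mem_roots hf, IsRoot.def]
    simp only [eval_sub, eval_mul, eval_X, eval_C]
    rw [hz, sub_self]
  exact Finset.single_le_sum (f := fun z => |Real.log ‖f.eval z‖ - M * Real.log ‖z‖|)
    (fun _ _ => abs_nonneg _) hmem

theorem crit_ne_zero {f : ℂ[X]} (hf : f.Monic) {M : ℕ} (h : f.natDegree ≠ M)
    (h0 : f.natDegree ≠ 0) : X * derivative f - C (M : ℂ) * f ≠ 0 := by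
  intro h1
  obtain ⟨k, hk⟩ := Nat.exists_eq_succ_of_ne_zero h0
  have h2 := congrArg (fun q => coeff q (k + 1)) h1
  simp only [coeff_sub, coeff_X_mul, coeff_C_mul, coeff_zero, coeff_derivative] at h2
  have h3 : f.coeff (k + 1) = 1 := by
    have := hf.coeff_natDegree
    rwa [hk] at this
  rw [h3, one_mul, mul_one, sub_eq_zero] at h2
  apply h
  rw [hk]
  exact_mod_cast h2

end bound

section smooth

open Polynomial

variable {K : Type*} [Field K] {n : ℕ} {D : Dat K n}

theorem gp_monic (j : Fin (n + 1)) : (gp D j).Monic := by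
  refine Fin.cases ?_ (fun j => ?_) j
  · exact (monic_X_sub_C _).mul (monic_X_sub_C _)
  · show (∏ i, (X - C (D.a j i))).Monic
    exact monic_prod_of_monic _ _ fun i _ => monic_X_sub_C _

theorem mp_lt (hD : D.Ok) (j : Fin (n + 1)) : mp D j < (gp D j).natDegree := by
  refine Fin.cases ?_ (fun j => ?_) j
  · show 1 < ((X - C D.al) * (X - C D.be)).natDegree
    rw [(monic_X_sub_C D.al).natDegree_mul (monic_X_sub_C D.be)]
    simp
  · show D.m j < (∏ i, (X - C (D.a j i))).natDegree
    rw [natDegree_prod_of_monic _ _ fun i _ => monic_X_sub_C _]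
    have := hD.le j
    simp
    omega

theorem exists_smooth (hD : D.Ok) (σ : K →+* ℂ) : ∃ C1 : ℝ, ∀ lam : K, lam ≠ 0 →
    C1 < |Real.log ‖σ lam‖| → ∀ p : Fin (n + 1) → ℂ, (∀ j, p j ≠ 0) →
      MvPolynomial.eval₂ σ p (ueqn lam D) = 0 →
      ∃ i, MvPolynomial.eval₂ σ p (MvPolynomial.pderiv i (ueqn lam D)) ≠ 0 := by
  classical
  have hmap : ∀ j, (derivative ((gp D j).map σ)) = (derivative (gp D j)).map σ := fun j =>
    derivative_map _ _
  have hcrit : ∀ j, X * derivative ((gp D j).map σ) - C (mp D j : ℂ) * (gp D j).map σ ≠ 0 := by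
    intro j
    have h1 := mp_lt hD j
    refine crit_ne_zero ((gp_monic j).map σ) ?_ ?_
    · rw [natDegree_map]
      omega
    · rw [natDegree_map]
      omega
  choose B hB0 hB using fun j => exists_bound ((gp D j).map σ) (mp D j) (hcrit j)
  refine ⟨∑ j, B j, fun lam hl0 hlam p hp h => ?_⟩
  by_contra hcon
  push Not at hcon
  have hev : ∀ f : Fin (n + 1) → K[X], ∀ t : Finset (Fin (n + 1)),
      MvPolynomial.eval₂Hom σ p (∏ i ∈ t, Polynomial.aeval (MvPolynomial.X i) (f i)) =
      ∏ i ∈ t, (f i).eval₂ σ (p i) := by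
    intro f t
    rw [map_prod]
    exact Finset.prod_congr rfl fun i _ => eval_aeval σ p (f i) i
  have h1 : ∏ i, (gp D i).eval₂ σ (p i) = σ lam * ∏ i, p i ^ mp D i := by
    have h2 : MvPolynomial.eval₂Hom σ p (ueqn lam D) = 0 := h
    rw [ueqn_eq, map_sub, map_mul, hev, hev, sub_eq_zero] at h2
    rw [h2]
    simp
  have hσ0 : σ lam ≠ 0 := (map_ne_zero σ).2 hl0
  have hg0 : ∀ i, (gp D i).eval₂ σ (p i) ≠ 0 := by
    have h3 : ∏ i, (gp D i).eval₂ σ (p i) ≠ 0 := by
      rw [h1]
      exact mul_ne_zero hσ0 (Finset.prod_ne_zero_iff.2 fun i _ => pow_ne_zero _ (hp i))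
    intro i
    exact Finset.prod_ne_zero_iff.1 h3 i (Finset.mem_univ i)
  have hkey : ∀ j, p j * (derivative (gp D j)).eval₂ σ (p j) =
      mp D j * (gp D j).eval₂ σ (p j) := by
    intro j
    have h2 : MvPolynomial.eval₂Hom σ p (MvPolynomial.pderiv j (ueqn lam D)) = 0 := hcon j
    rw [ueqn_eq, map_sub, MvPolynomial.pderiv_C_mul, pderiv_prod_aeval, pderiv_prod_aeval,
      map_sub, map_mul, map_mul, map_mul, hev, hev, eval_aeval,
      eval_aeval] at h2
    have h3 : p j * (derivative (X ^ mp D j : K[X])).eval₂ σ (p j) = mp D j * p j ^ mp D j := by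
      rcases Nat.eq_zero_or_pos (mp D j) with h0 | h0
      · rw [h0]
        simp
      · obtain ⟨k, hk⟩ := Nat.exists_eq_succ_of_ne_zero h0.ne'
        rw [hk, derivative_X_pow]
        simp [pow_succ]
        ring
    have h4 : p j * (derivative (gp D j)).eval₂ σ (p j) *
        ∏ i ∈ Finset.univ.erase j, (gp D i).eval₂ σ (p i) =
        mp D j * (gp D j).eval₂ σ (p j) *
        ∏ i ∈ Finset.univ.erase j, (gp D i).eval₂ σ (p i) := by
      rw [mul_assoc (mp D j : ℂ), Finset.mul_prod_erase Finset.univ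
        (fun i => (gp D i).eval₂ σ (p i)) (Finset.mem_univ j), h1,
        ← Finset.mul_prod_erase Finset.univ (fun i => p i ^ mp D i) (Finset.mem_univ j)]
      have h5 : ∏ i ∈ Finset.univ.erase j, (X ^ mp D i : K[X]).eval₂ σ (p i) =
          ∏ i ∈ Finset.univ.erase j, p i ^ mp D i :=
        Finset.prod_congr rfl fun i _ => by simp
      rw [h5] at h2
      have h6 : (MvPolynomial.eval₂Hom σ p) (MvPolynomial.C lam) = σ lam := by simp
      rw [h6] at h2
      linear_combination (p j) * h2 + σ lam *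
        (∏ i ∈ Finset.univ.erase j, p i ^ mp D i) * h3
    exact mul_right_cancel₀ (Finset.prod_ne_zero_iff.2 fun i _ => hg0 i) h4
  have hlog : Real.log ‖σ lam‖ =
      ∑ j, (Real.log ‖(gp D j).eval₂ σ (p j)‖ - mp D j * Real.log ‖p j‖) := by
    have h2 := congrArg (fun z : ℂ => Real.log ‖z‖) h1
    simp only [norm_mul, norm_prod, norm_pow] at h2
    rw [Real.log_mul (norm_ne_zero_iff.2 hσ0) (Finset.prod_ne_zero_iff.2 fun i _ =>
      pow_ne_zero _ (norm_ne_zero_iff.2 (hp i))), Real.log_prod fun i _ =>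
      norm_ne_zero_iff.2 (hg0 i), Real.log_prod fun i _ =>
      pow_ne_zero _ (norm_ne_zero_iff.2 (hp i))] at h2
    simp only [Real.log_pow] at h2
    rw [Finset.sum_sub_distrib]
    linarith
  have hfin : |Real.log ‖σ lam‖| ≤ ∑ j, B j := by
    rw [hlog]
    refine (Finset.abs_sum_le_sum_abs _ _).trans (Finset.sum_le_sum fun j _ => ?_)
    have h2 := hB j (p j) (by
      rw [hmap, eval_map, eval_map]
      exact hkey j)
    rwa [eval_map] at h2
  linarith

end smooth

end Pool.Agent.TH333.UP
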