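import Pool.Agent.TH333.UP.Dom
import Pool.Agent.TH333.CY.Unram
set_option autoImplicit false

/-!
The symbols are unramified at all discrete valuations.
-/

namespace Pool.Agent.TH333.UP

open scoped WithZero

open Pool.Agent.TH826.MK

section abs

variable {L : Type*} [Field L] (v : Valuation L ℤᵐ⁰)

theorem symb_mem_of {n N : ℕ} (hN : N ≠ 0) (e : Fin n → Lˣ) (φ : Fin n → ℤᵐ⁰)
    (h0 : ∀ j, φ j ≠ 0) (hφ : ∏ j, φ j = 1) (h1 : ∀ j, v (e j : L) ≠ 1 → 1 < φ j)
    (h2 : ∀ j, φ j < 1 → v ((e j : L) ^ N - 1) < 1) : symb e ∈ unitPart v n := by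
  classical
  by_cases h : ∀ j, v (e j : L) = 1
  · exact Submodule.subset_span ⟨e, h, rfl⟩
  · push Not at h
    obtain ⟨j, hj⟩ := h
    have h3 := h1 j hj
    have h4 : ∃ i, φ i < 1 := by
      by_contra hcon
      push Not at hcon
      have h5 : ∏ i, (φ i)⁻¹ = 1 := by rw [Finset.prod_inv_distrib, hφ, inv_one]
      have h6 := (Pool.Agent.TH333.CY.all_one (u := 1)
        (fun i => (inv_le_one₀ (zero_lt_iff.2 (h0 i))).2 (hcon i)) le_rfl
        (by rw [one_mul, h5])).2 j
      rw [inv_eq_one] at h6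
      rw [h6] at h3
      exact lt_irrefl _ h3
    obtain ⟨i, hi⟩ := h4
    exact mem_unitPart_of_pow v i (m := N) e hN (h2 i hi)

theorem val_pow_sub_pow {x y : L} (hx : v x ≤ 1) (hy : v y ≤ 1) (h : v (x - y) < 1) (N : ℕ) :
    v (x ^ N - y ^ N) < 1 := by
  induction N with
  | zero => simp
  | succ N ih =>
    have e : x ^ (N + 1) - y ^ (N + 1) = x ^ N * (x - y) + (x ^ N - y ^ N) * y := by ring
    rw [e]
    refine (v.map_add _ _).trans_lt (max_lt ?_ ?_)
    · rw [map_mul, map_pow]
      calc _ ≤ 1 * v (x - y) := mul_le_mul' (pow_le_one' hx N) le_rfl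
        _ = v (x - y) := one_mul _
        _ < 1 := h
    · rw [map_mul]
      calc _ ≤ v (x ^ N - y ^ N) * 1 := mul_le_mul' le_rfl hy
        _ = v (x ^ N - y ^ N) := mul_one _
        _ < 1 := ih

theorem val_root {b : L} {N : ℕ} (hN : N ≠ 0) (hb : b ^ N = 1) : v b = 1 := by
  have h1 : v b ^ N = 1 := by rw [← map_pow, hb, map_one]
  rcases lt_trichotomy (v b) 1 with h | h | h
  · exact absurd h1 (pow_lt_one₀ zero_le h hN).ne
  · exact h
  · exact absurd h1 (one_lt_pow₀ h hN).ne'

variable {ι : Type*} [Fintype ι]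

/-- the value of `∏ (z - b_i) / z^M` -/
noncomputable def ph (b : ι → L) (M : ℕ) (z : L) : ℤᵐ⁰ := v (∏ i, (z - b i)) / v z ^ M

variable {v} {b : ι → L} {N M : ℕ} {z : L}

theorem val_low (hb : ∀ i, v (b i) = 1) (h : v z < 1) (i : ι) : v (z - b i) = 1 := by
  rw [Valuation.map_sub_eq_of_lt_right v (by rw [hb]; exact h), hb]

theorem val_high (hb : ∀ i, v (b i) = 1) (h : 1 < v z) (i : ι) : v (z - b i) = v z :=
  Valuation.map_sub_eq_of_lt_left v (by rw [hb]; exact h)

theorem val_mid (hb : ∀ i, v (b i) = 1) (h : v z = 1) (i : ι) : v (z - b i) ≤ 1 :=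
  (v.map_sub _ _).trans (max_le h.le (hb i).le)

theorem prod_lt [DecidableEq ι] {t : ι → ℤᵐ⁰} (ht : ∀ i, t i ≤ 1) {i : ι} (h : t i < 1) :
    ∏ i, t i < 1 := by
  rw [← Finset.mul_prod_erase _ _ (Finset.mem_univ i)]
  calc _ ≤ t i * 1 := mul_le_mul' le_rfl (Finset.prod_le_one' fun j _ => ht j)
    _ = t i := mul_one _
    _ < 1 := h

theorem ph_ne_zero (hz : z ≠ 0) (hzb : ∀ i, z - b i ≠ 0) : ph v b M z ≠ 0 := by
  unfold ph
  refine div_ne_zero ((Valuation.ne_zero_iff v).2 (Finset.prod_ne_zero_iff.2 fun i _ => hzb i))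
    (pow_ne_zero _ ((Valuation.ne_zero_iff v).2 hz))

theorem ph_mid (h : v z = 1) : ph v b M z = ∏ i, v (z - b i) := by
  unfold ph
  rw [h, one_pow, div_one, map_prod]

theorem ph_gt (hb : ∀ i, v (b i) = 1) (hM1 : 1 ≤ M) (hM2 : M < Fintype.card ι) (hz : z ≠ 0)
    (h : v z ≠ 1) : 1 < ph v b M z := by
  have hv0 : 0 < v z := zero_lt_iff.2 ((Valuation.ne_zero_iff v).2 hz)
  unfold ph
  rw [map_prod]
  rcases lt_or_gt_of_ne h with h | h
  · simp only [val_low hb h, Finset.prod_const_one]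
    rw [one_lt_div₀ (pow_pos hv0 _)]
    exact pow_lt_one₀ zero_le h (by omega)
  · simp only [val_high hb h, Finset.prod_const, Finset.card_univ]
    rw [one_lt_div₀ (pow_pos hv0 _)]
    exact pow_lt_pow_right₀ h hM2

theorem ph_lt (hN : ∀ i, b i ^ N = 1) (hb : ∀ i, v (b i) = 1) (hM1 : 1 ≤ M)
    (hM2 : M < Fintype.card ι) (hz : z ≠ 0) (h : ph v b M z < 1) : v (z ^ N - 1) < 1 := by
  have h1 : v z = 1 := by
    by_contra hcon
    exact absurd (ph_gt hb hM1 hM2 hz hcon) h.not_gt
  rw [ph_mid h1] at h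
  have h2 : ∃ i, v (z - b i) < 1 := by
    by_contra hcon
    push Not at hcon
    have h3 : ∀ i, v (z - b i) = 1 := fun i => le_antisymm (val_mid hb h1 i) (hcon i)
    simp only [h3, Finset.prod_const_one] at h
    exact lt_irrefl _ h
  obtain ⟨i, hi⟩ := h2
  rw [← hN i]
  exact val_pow_sub_pow v h1.le (hb i).le hi N

theorem ph_ratio_ne (hb : ∀ i, v (b i) = 1) (hzb : ∀ i, z - b i ≠ 0) (k l : ι)
    (h : v ((z - b k) / (z - b l)) ≠ 1) : ph v b M z < 1 := by
  classical
  rw [map_div₀] at h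
  have hv : ∀ i, v (z - b i) ≠ 0 := fun i => (Valuation.ne_zero_iff v).2 (hzb i)
  have h1 : v z = 1 := by
    by_contra hcon
    apply h
    rcases lt_or_gt_of_ne hcon with h1 | h1
    · rw [val_low hb h1, val_low hb h1, div_one]
    · rw [val_high hb h1, val_high hb h1, div_self]
      intro h0
      rw [h0] at h1
      exact not_lt_zero h1
  rw [ph_mid h1]
  by_cases hk : v (z - b k) < 1
  · exact prod_lt (fun i => val_mid hb h1 i) hk
  · have hk1 : v (z - b k) = 1 := le_antisymm (val_mid hb h1 k) (not_lt.1 hk)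
    refine prod_lt (fun i => val_mid hb h1 i) (i := l) (lt_of_le_of_ne (val_mid hb h1 l) ?_)
    intro hl
    apply h
    rw [hk1, hl, div_one]

theorem ph_ratio (hN : ∀ i, b i ^ N = 1) (hb : ∀ i, v (b i) = 1) (hzb : ∀ i, z - b i ≠ 0)
    (k l : ι) (h : 1 < ph v b M z) : v (((z - b k) / (z - b l)) ^ N - 1) < 1 := by
  have hv : ∀ i, v (z - b i) ≠ 0 := fun i => (Valuation.ne_zero_iff v).2 (hzb i)
  have hb0 : ∀ i, b i ≠ 0 := fun i h0 => by
    have := hb i
    rw [h0, map_zero] at this
    exact zero_ne_one this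
  have hlk : v (b l - b k) ≤ 1 := (v.map_sub _ _).trans (max_le (hb l).le (hb k).le)
  have h1 : v z ≠ 1 := by
    intro h1
    rw [ph_mid h1] at h
    exact absurd h (Finset.prod_le_one' fun i _ => val_mid hb h1 i).not_gt
  rcases lt_or_gt_of_ne h1 with h1 | h1
  · have e : (z - b k) / (z - b l) - b k / b l = (b l - b k) * z / ((z - b l) * b l) := by
      have h2 := hzb l
      have h3 := hb0 l
      field_simp
      ring
    have hc : (b k / b l) ^ N = 1 := by rw [div_pow, hN, hN, div_one]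
    rw [← hc]
    refine val_pow_sub_pow v ?_ ?_ ?_ N
    · rw [map_div₀, val_low hb h1, val_low hb h1, div_one]
    · rw [map_div₀, hb, hb, div_one]
    · rw [e, map_div₀, map_mul, map_mul, val_low hb h1, hb, mul_one, div_one]
      calc _ ≤ 1 * v z := mul_le_mul' hlk le_rfl
        _ = v z := one_mul _
        _ < 1 := h1
  · have e : (z - b k) / (z - b l) - 1 = (b l - b k) / (z - b l) := by
      have h2 := hzb l
      field_simp
      ring
    have hc : (1 : L) ^ N = 1 := one_pow N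
    rw [← hc]
    refine val_pow_sub_pow v ?_ (map_one v).le ?_ N
    · rw [map_div₀, val_high hb h1, val_high hb h1, div_self (zero_lt_one.trans h1).ne']
    · rw [e, map_div₀, val_high hb h1, div_lt_one₀ (zero_lt_one.trans h1)]
      exact hlk.trans_lt h1

end abs

section Unram

variable {K : Type*} [Field K] {n : ℕ} {lam : K} {D : Dat K n}

variable {L : Type*} [Field L] (f : UOpen lam D →+* L)

/-- the composite map from the coefficient field -/
noncomputable def cU : K →+* L := f.comp (ucst lam D)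

/-- the image of `z_j` -/
noncomputable def zU (j : Fin (n + 1)) : L := f (toU lam D (upol lam D (MvPolynomial.X j)))

theorem map_lin (j : Fin (n + 1)) (x : K) :
    f (toU lam D (upol lam D (MvPolynomial.X j - MvPolynomial.C x))) = zU f j - cU f x := by
  rw [map_sub, map_sub, map_sub]
  rfl

theorem zU_eq : (zU f 0 - cU f D.al) * (zU f 0 - cU f D.be) *
    ∏ j, ∏ i, (zU f j.succ - cU f (D.a j i)) =
    cU f lam * (zU f 0 * ∏ j, zU f j.succ ^ D.m j) := by
  have h := congrArg (fun b => f (toU lam D b)) (upol_ueqn lam D)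
  unfold ueqn ufac at h
  rw [map_sub, map_sub, map_sub, map_zero, map_zero, sub_eq_zero] at h
  simp only [map_mul, map_prod, map_pow, map_lin] at h
  exact h

theorem zU_ne_zero (j : Fin (n + 1)) : zU f j ≠ 0 := ((isUnit_x lam D j).map f).ne_zero

theorem zal_ne_zero : zU f 0 - cU f D.al ≠ 0 := by
  rw [← map_lin]
  exact ((isUnit_al lam D).map f).ne_zero

theorem zbe_ne_zero : zU f 0 - cU f D.be ≠ 0 := by
  rw [← map_lin]
  exact ((isUnit_be lam D).map f).ne_zero

theorem za_ne_zero (j : Fin n) (i : Fin (D.r j + 1)) : zU f j.succ - cU f (D.a j i) ≠ 0 := by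
  rw [← map_lin]
  exact ((isUnit_a lam D j i).map f).ne_zero

/-- the values of the factors -/
noncomputable def phs (v : Valuation L ℤᵐ⁰) : Fin (n + 1) → ℤᵐ⁰ :=
  Fin.cons (ph v ![cU f D.al, cU f D.be] 1 (zU f 0))
    fun j => ph v (fun i => cU f (D.a j i)) (D.m j) (zU f j.succ)

theorem prod_phs (v : Valuation L ℤᵐ⁰) (hlam : v (cU f lam) = 1) : ∏ j, phs f v j = 1 := by
  unfold phs ph
  rw [Fin.prod_univ_succ]
  simp only [Fin.cons_zero, Fin.cons_succ]
  rw [Fin.prod_univ_two, Finset.prod_div_distrib, ← map_prod v, div_mul_div_comm, ← map_mul v]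
  have h1 : (zU f 0 - ![cU f D.al, cU f D.be] 0) * (zU f 0 - ![cU f D.al, cU f D.be] 1) =
    (zU f 0 - cU f D.al) * (zU f 0 - cU f D.be) := rfl
  rw [h1, zU_eq, map_mul, hlam, one_mul, pow_one, map_mul, map_prod]
  simp only [map_pow]
  refine div_self (mul_ne_zero ((Valuation.ne_zero_iff v).2 (zU_ne_zero f 0)) ?_)
  exact Finset.prod_ne_zero_iff.2 fun j _ =>
    pow_ne_zero _ ((Valuation.ne_zero_iff v).2 (zU_ne_zero f j.succ))

theorem val_unit (v : Valuation L ℤᵐ⁰) {x : K} (h1 : IsIntegral ℤ x) (h2 : IsIntegral ℤ x⁻¹)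
    (h0 : x ≠ 0) : v (cU f x) = 1 := by
  refine le_antisymm (val_le_one_of_integral v (map_isIntegral_int _ h1)) ?_
  have h3 := val_le_one_of_integral v (map_isIntegral_int (cU f) h2)
  rw [map_inv₀, map_inv₀] at h3
  have h4 : cU f x ≠ 0 := (map_ne_zero _).2 h0
  rwa [inv_le_one₀ (by rw [Valuation.pos_iff]; exact h4)] at h3

/-- The symbols are unramified at all discrete valuations. -/
theorem symb_mem_unitPart (hD : D.Ok) (h1 : IsIntegral ℤ lam) (h2 : IsIntegral ℤ lam⁻¹)
    (h0 : lam ≠ 0) (v : Valuation L ℤᵐ⁰) (o : Option ((j : Fin n) → Fin (D.r j))) :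
    symb (fun l => Units.map (f : UOpen lam D →* L) (uent lam D o l)) ∈ unitPart v (n + 1) := by
  classical
  obtain ⟨N, hN, hal, hbe, ha⟩ := hD.root
  have hcN : ∀ x : K, x ^ N = 1 → (cU f x) ^ N = 1 := fun x hx => by
    rw [← map_pow, hx, map_one]
  have hB0 : ∀ i, (![cU f D.al, cU f D.be] i) ^ N = 1 := by
    intro i
    fin_cases i
    · exact hcN _ hal
    · exact hcN _ hbe
  have hBs : ∀ j i, (cU f (D.a j i)) ^ N = 1 := fun j i => hcN _ (ha j i)
  have hv0 : ∀ i, v (![cU f D.al, cU f D.be] i) = 1 := fun i => val_root v hN (hB0 i)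
  have hvs : ∀ j i, v (cU f (D.a j i)) = 1 := fun j i => val_root v hN (hBs j i)
  have hz0 : ∀ i, zU f 0 - ![cU f D.al, cU f D.be] i ≠ 0 := by
    intro i
    fin_cases i
    · exact zal_ne_zero f
    · exact zbe_ne_zero f
  have hprod := prod_phs f v (val_unit f v h1 h2 h0)
  have hne : ∀ j, phs f v j ≠ 0 := by
    intro j
    refine Fin.cases ?_ (fun j => ?_) j
    · exact ph_ne_zero (zU_ne_zero f 0) hz0
    · exact ph_ne_zero (zU_ne_zero f j.succ) fun i => za_ne_zero f j i
  have hcard : ∀ j, D.m j < Fintype.card (Fin (D.r j + 1)) := by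
    intro j
    rw [Fintype.card_fin]
    exact Nat.lt_succ_of_le (hD.le j)
  rcases o with _ | k
  · refine symb_mem_of v hN _ (phs f v) hne hprod (fun j hj => ?_) (fun j hj => ?_)
    · revert hj
      refine Fin.cases ?_ (fun j => ?_) j
      · intro hj
        exact ph_gt hv0 le_rfl (by simp) (zU_ne_zero f 0) hj
      · intro hj
        exact ph_gt (hvs j) (hD.one_le j) (hcard j) (zU_ne_zero f j.succ) hj
    · revert hj
      refine Fin.cases ?_ (fun j => ?_) j
      · intro hj
        exact ph_lt hB0 hv0 le_rfl (by simp) (zU_ne_zero f 0) hj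
      · intro hj
        exact ph_lt (hBs j) (hvs j) (hD.one_le j) (hcard j) (zU_ne_zero f j.succ) hj
  · have hdiv : ∀ x y : (UOpen lam D)ˣ, (Units.map (f : UOpen lam D →* L) (x / y) : L) =
        f (x : UOpen lam D) / f (y : UOpen lam D) := by
      intro x y
      rw [map_div, Units.val_div_eq_div_val]
      rfl
    have e0 : (Units.map (f : UOpen lam D →* L) (uent lam D (some k) 0) : L) =
        (zU f 0 - ![cU f D.al, cU f D.be] 0) / (zU f 0 - ![cU f D.al, cU f D.be] 1) := by
      rw [uent_zero, hdiv]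
      congr 1
      · exact map_lin f 0 D.al
      · exact map_lin f 0 D.be
    have es : ∀ j : Fin n, (Units.map (f : UOpen lam D →* L) (uent lam D (some k) j.succ) : L) =
        (zU f j.succ - cU f (D.a j (k j).castSucc)) /
          (zU f j.succ - cU f (D.a j (Fin.last (D.r j)))) := by
      intro j
      rw [uent_succ, hdiv]
      congr 1
      · exact map_lin f j.succ _
      · exact map_lin f j.succ _
    refine symb_mem_of v hN _ (fun j => (phs f v j)⁻¹) (fun j => inv_ne_zero (hne j))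
      (by rw [Finset.prod_inv_distrib, hprod, inv_one]) (fun j hj => ?_) (fun j hj => ?_)
    · rw [one_lt_inv₀ (zero_lt_iff.2 (hne j))]
      revert hj
      refine Fin.cases ?_ (fun j => ?_) j
      · intro hj
        rw [e0] at hj
        exact ph_ratio_ne hv0 hz0 0 1 hj
      · intro hj
        rw [es] at hj
        exact ph_ratio_ne (b := fun i => cU f (D.a j i)) (hvs j) (fun i => za_ne_zero f j i)
          _ _ hj
    · rw [inv_lt_one₀ (zero_lt_iff.2 (hne j))] at hj
      revert hj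
      refine Fin.cases ?_ (fun j => ?_) j
      · intro hj
        rw [e0]
        exact ph_ratio hB0 hv0 hz0 0 1 hj
      · intro hj
        rw [es]
        exact ph_ratio (b := fun i => cU f (D.a j i)) (hBs j) (hvs j)
          (fun i => za_ne_zero f j i) _ _ hj

theorem symb_mem_unramified (hD : D.Ok) (h1 : IsIntegral ℤ lam) (h2 : IsIntegral ℤ lam⁻¹)
    (h0 : lam ≠ 0) (o : Option ((j : Fin n) → Fin (D.r j))) :
    KQ.map (n + 1) f (symb (uent lam D o)) ∈ Unramified L (n + 1) := by
  rw [KQ.map_symb]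
  unfold Unramified
  simp only [Submodule.mem_iInf]
  intro v _
  exact symb_mem_unitPart f hD h1 h2 h0 v o

end Unram

end Pool.Agent.TH333.UP
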