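import Pool.Agent.TH333.UP.Ring
set_option autoImplicit false

/-!
The hypersurfaces are irreducible for large `λ`.
-/

namespace Pool.Agent.TH333.UP

section quad

open Polynomial in
theorem irreducible_quad' {B : Type*} [CommRing B] [IsDomain B] {G M G' : B} (hG : G ≠ 0)
    (h1 : ∀ p, p ∣ G → p ∣ M → IsUnit p)
    (h2 : ∀ α β γ δ : B, α * γ = G → β * δ = G' → α * δ + β * γ = M → False) :
    Irreducible (C G * X ^ 2 + C M * X + C G' : B[X]) := by
  have hdeg : (C G * X ^ 2 + C M * X + C G' : B[X]).natDegree = 2 :=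
    natDegree_quadratic hG
  have hne : (C G * X ^ 2 + C M * X + C G' : B[X]) ≠ 0 := by
    intro h
    rw [h, natDegree_zero] at hdeg
    exact absurd hdeg (by norm_num)
  have hc : ∀ p : B, C p ∣ (C G * X ^ 2 + C M * X + C G' : B[X]) → IsUnit p := by
    intro p hp
    rw [C_dvd_iff_dvd_coeff] at hp
    have hp0 := hp 2
    have hp1 := hp 1
    simp [coeff_C] at hp0 hp1
    exact h1 p hp0 hp1
  constructor
  · intro hu
    have := natDegree_eq_zero_of_isUnit hu
    omega
  · intro P Q hPQ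
    have hP0 : P ≠ 0 := by rintro rfl; exact hne (by rw [hPQ, zero_mul])
    have hQ0 : Q ≠ 0 := by rintro rfl; exact hne (by rw [hPQ, mul_zero])
    have hd : P.natDegree + Q.natDegree = 2 := by
      rw [← natDegree_mul hP0 hQ0, ← hPQ, hdeg]
    rcases Nat.eq_zero_or_pos P.natDegree with hp | hp
    · left
      rw [eq_C_of_natDegree_eq_zero hp] at hPQ ⊢
      exact (hc _ (hPQ ▸ Dvd.intro _ rfl)).map C
    rcases Nat.eq_zero_or_pos Q.natDegree with hq | hq
    · right
      rw [eq_C_of_natDegree_eq_zero hq] at hPQ ⊢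
      exact (hc _ (hPQ ▸ Dvd.intro_left _ rfl)).map C
    exfalso
    obtain ⟨α, β, hP⟩ := exists_eq_X_add_C_of_natDegree_le_one (p := P) (by omega)
    obtain ⟨γ, δ, hQ⟩ := exists_eq_X_add_C_of_natDegree_le_one (p := Q) (by omega)
    have e : (C α * X + C β) * (C γ * X + C δ) =
        C (α * γ) * X ^ 2 + C (α * δ + β * γ) * X + C (β * δ) := by
      simp only [map_mul, map_add]
      ring
    rw [hP, hQ, e] at hPQ
    have c0 := congrArg (fun p => coeff p 0) hPQ
    have c1 := congrArg (fun p => coeff p 1) hPQ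
    have c2 := congrArg (fun p => coeff p 2) hPQ
    simp only [coeff_add, coeff_C_mul, coeff_X_pow, coeff_X, coeff_C] at c0 c1 c2
    norm_num at c0 c1 c2
    exact h2 α β γ δ c2.symm c0.symm c1.symm

end quad

section size

open Polynomial

variable {K : Type*} [Field K] {σ : K →+* ℂ} {ι : Type*} [Fintype ι] {b : ι → K} {c : K}

theorem gne (hc : c ≠ 0) : (C c * ∏ i, (X - C (b i)) : K[X]) ≠ 0 :=
  mul_ne_zero (by rwa [Ne, C_eq_zero]) (Finset.prod_ne_zero_iff.2 fun i _ => X_sub_C_ne_zero _)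

theorem splits_of_dvd (hc : c ≠ 0) {A : K[X]} (hA : A ∣ C c * ∏ i, (X - C (b i))) :
    A.Splits :=
  ((Splits.C c).mul (Splits.prod fun i _ => Splits.X_sub_C (b i))).of_dvd (gne hc) hA

theorem root_of_dvd (hc : c ≠ 0) {A : K[X]} (hA : A ∣ C c * ∏ i, (X - C (b i))) {y : K}
    (hy : y ∈ A.roots) : ∃ i, y = b i := by
  obtain ⟨q, hq⟩ := hA
  have h1 : A.eval y = 0 := (mem_roots'.1 hy).2
  have h2 := congrArg (eval y) hq
  rw [eval_mul, eval_mul, h1, zero_mul, eval_C, eval_prod] at h2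
  rcases mul_eq_zero.1 h2 with h | h
  · exact absurd h hc
  · obtain ⟨i, -, hi⟩ := Finset.prod_eq_zero_iff.1 h
    refine ⟨i, ?_⟩
    simpa [sub_eq_zero] using hi

theorem size (hc : c ≠ 0) (hb : ∀ i, ‖σ (b i)‖ = 1) {A : K[X]}
    (hA : A ∣ C c * ∏ i, (X - C (b i))) {x : K} (hx : ‖σ x‖ = 1) :
    ‖σ (A.eval x)‖ ≤ ‖σ A.leadingCoeff‖ * 2 ^ A.natDegree := by
  have hs := splits_of_dvd hc hA
  have h1 := hs.natDegree_eq_card_roots
  have h2 := hs.eq_prod_roots
  have h3 : σ (A.eval x) = σ A.leadingCoeff * (A.roots.map fun y => σ x - σ y).prod := by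
    conv_lhs => rw [h2]
    rw [eval_mul, eval_C, eval_multiset_prod, map_mul, Multiset.map_map, map_multiset_prod,
      Multiset.map_map]
    congr 2
    refine Multiset.map_congr rfl fun y _ => ?_
    simp
  rw [h3, norm_mul, h1]
  refine mul_le_mul_of_nonneg_left ?_ (norm_nonneg _)
  have h4 : ∀ s : Multiset K, (∀ y ∈ s, ‖σ y‖ = 1) →
      ‖(s.map fun y => σ x - σ y).prod‖ ≤ 2 ^ Multiset.card s := by
    intro s
    induction s using Multiset.induction_on with
    | empty => intro _; simp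
    | cons y s ih =>
      intro hs
      rw [Multiset.map_cons, Multiset.prod_cons, norm_mul, Multiset.card_cons, pow_succ, mul_comm]
      refine mul_le_mul (ih fun y hy => hs y (Multiset.mem_cons_of_mem hy)) ?_ (norm_nonneg _)
        (by positivity)
      refine (norm_sub_le _ _).trans ?_
      rw [hx, hs y (Multiset.mem_cons_self y s)]
      norm_num
  refine h4 _ fun y hy => ?_
  obtain ⟨i, hi⟩ := root_of_dvd hc hA hy
  rw [hi]
  exact hb i

theorem natDegree_eq_zero_of (hc : c ≠ 0) {A : K[X]} (hA : A ∣ C c * ∏ i, (X - C (b i)))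
    (h : ∀ i, A.eval (b i) ≠ 0) : A.natDegree = 0 := by
  have hs := splits_of_dvd hc hA
  rw [hs.natDegree_eq_card_roots, Multiset.card_eq_zero, Multiset.eq_zero_iff_forall_notMem]
  intro y hy
  obtain ⟨i, hi⟩ := root_of_dvd hc hA hy
  have h1 : A.eval y = 0 := (mem_roots'.1 hy).2
  rw [hi] at h1
  exact h i h1

theorem deg_contra {r : ℕ} {P Q R S E : K[X]} (hP : P.natDegree = 0) (hQ : Q.natDegree = 0)
    (hR : R.natDegree = r + 1) (hS : S.natDegree = r + 1) (hE : E.natDegree ≤ r + 1)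
    (h : P * Q + R * S = E) : False := by
  have hR0 : R ≠ 0 := by rintro rfl; rw [natDegree_zero] at hR; omega
  have hS0 : S ≠ 0 := by rintro rfl; rw [natDegree_zero] at hS; omega
  have h1 : (R * S).natDegree = (r + 1) + (r + 1) := by rw [natDegree_mul hR0 hS0, hR, hS]
  have h2 : R * S = E - P * Q := by rw [← h]; ring
  have h3 : (E - P * Q).natDegree ≤ r + 1 := by
    refine (natDegree_sub_le _ _).trans (max_le hE ?_)
    refine natDegree_mul_le.trans ?_
    omega
  rw [← h2, h1] at h3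
  omega

theorem poly_contra {r m : ℕ} {b : Fin (r + 1) → K} (hb : ∀ i, ‖σ (b i)‖ = 1) (hm : m ≤ r + 1)
    {p k l : K} (hc : c ≠ 0) (hp : ‖σ p‖ = 1) (hl : ‖σ c‖ * 2 ^ (r + 1) < ‖σ l‖) {A B Γ Δ : K[X]}
    (h1 : A * Γ = C c * ∏ i, (X - C (b i))) (h2 : B * Δ = C (p * c) * ∏ i, (X - C (b i)))
    (h3 : A * Δ + B * Γ = C k * ∏ i, (X - C (b i)) + C l * X ^ m) : False := by
  have hp0 : p ≠ 0 := by
    rintro rfl
    rw [map_zero, norm_zero] at hp
    exact zero_ne_one hp
  have hpc : p * c ≠ 0 := mul_ne_zero hp0 hc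
  have hc' : 0 < ‖σ c‖ := norm_pos_iff.2 ((map_ne_zero σ).2 hc)
  have hl0 : l ≠ 0 := by
    rintro rfl
    rw [map_zero, norm_zero] at hl
    have : 0 ≤ ‖σ c‖ * 2 ^ (r + 1) := by positivity
    linarith
  have hb0 : ∀ i, b i ≠ 0 := by
    intro i h0
    have := hb i
    rw [h0, map_zero, norm_zero] at this
    exact zero_ne_one this
  have hmon : (∏ i, (X - C (b i)) : K[X]).Monic := monic_prod_of_monic _ _ fun i _ => monic_X_sub_C _
  have hdeg : (∏ i, (X - C (b i)) : K[X]).natDegree = r + 1 := by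
    rw [natDegree_prod_of_monic _ _ fun i _ => monic_X_sub_C _]
    simp
  have hdC : ∀ e : K, e ≠ 0 → (C e * ∏ i, (X - C (b i)) : K[X]).natDegree = r + 1 := by
    intro e he
    rw [natDegree_C_mul he, hdeg]
  have hlC : ∀ e : K, (C e * ∏ i, (X - C (b i)) : K[X]).leadingCoeff = e := by
    intro e
    rw [leadingCoeff_mul, leadingCoeff_C, hmon.leadingCoeff, mul_one]
  have hA := Dvd.intro Γ h1
  have hΓ := Dvd.intro_left A h1
  have hB := Dvd.intro Δ h2
  have hΔ := Dvd.intro_left B h2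
  have hA0 : A ≠ 0 := by rintro rfl; rw [zero_mul] at h1; exact gne hc h1.symm
  have hΓ0 : Γ ≠ 0 := by rintro rfl; rw [mul_zero] at h1; exact gne hc h1.symm
  have hB0 : B ≠ 0 := by rintro rfl; rw [zero_mul] at h2; exact gne hpc h2.symm
  have hΔ0 : Δ ≠ 0 := by rintro rfl; rw [mul_zero] at h2; exact gne hpc h2.symm
  have d1 : A.natDegree + Γ.natDegree = r + 1 := by
    rw [← natDegree_mul hA0 hΓ0, h1, hdC c hc]
  have d2 : B.natDegree + Δ.natDegree = r + 1 := by
    rw [← natDegree_mul hB0 hΔ0, h2, hdC _ hpc]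
  have l1 : A.leadingCoeff * Γ.leadingCoeff = c := by rw [← leadingCoeff_mul, h1, hlC]
  have l2 : B.leadingCoeff * Δ.leadingCoeff = p * c := by rw [← leadingCoeff_mul, h2, hlC]
  have hE : (C k * ∏ i, (X - C (b i)) + C l * X ^ m : K[X]).natDegree ≤ r + 1 := by
    refine (natDegree_add_le _ _).trans (max_le ?_ ?_)
    · refine (natDegree_C_mul_le _ _).trans ?_
      rw [hdeg]
    · exact (natDegree_C_mul_X_pow_le _ _).trans hm
  have hz : ∀ i, (∏ i, (X - C (b i)) : K[X]).eval (b i) = 0 := by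
    intro i
    rw [eval_prod]
    exact Finset.prod_eq_zero (Finset.mem_univ i) (by simp)
  have ev1 : ∀ i, A.eval (b i) * Γ.eval (b i) = 0 := by
    intro i
    rw [← eval_mul, h1, eval_mul, hz, mul_zero]
  have ev3 : ∀ i, A.eval (b i) * Δ.eval (b i) + B.eval (b i) * Γ.eval (b i) = l * b i ^ m := by
    intro i
    rw [← eval_mul, ← eval_mul, ← eval_add, h3, eval_add, eval_mul, hz, mul_zero, zero_add]
    simp
  have hne : ∀ i, l * b i ^ m ≠ 0 := fun i => mul_ne_zero hl0 (pow_ne_zero _ (hb0 i))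
  have hnorm : ∀ i, ‖σ (l * b i ^ m)‖ = ‖σ l‖ := by
    intro i
    rw [map_mul, map_pow, norm_mul, norm_pow, hb, one_pow, mul_one]
  by_cases c1 : ∃ i, A.eval (b i) = 0
  · by_cases c2 : ∃ i, A.eval (b i) ≠ 0
    · obtain ⟨i, hi⟩ := c1
      obtain ⟨j, hj⟩ := c2
      have e1 := ev3 i
      rw [hi, zero_mul, zero_add] at e1
      have e2 := ev3 j
      rw [(mul_eq_zero.1 (ev1 j)).resolve_left hj, mul_zero, add_zero] at e2
      have n1 : ‖σ l‖ ≤ (‖σ B.leadingCoeff‖ * 2 ^ B.natDegree) *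
          (‖σ Γ.leadingCoeff‖ * 2 ^ Γ.natDegree) := by
        rw [← hnorm i, ← e1, map_mul, norm_mul]
        exact mul_le_mul (size hpc hb hB (hb i)) (size hc hb hΓ (hb i)) (norm_nonneg _)
          (by positivity)
      have n2 : ‖σ l‖ ≤ (‖σ A.leadingCoeff‖ * 2 ^ A.natDegree) *
          (‖σ Δ.leadingCoeff‖ * 2 ^ Δ.natDegree) := by
        rw [← hnorm j, ← e2, map_mul, norm_mul]
        exact mul_le_mul (size hc hb hA (hb j)) (size hpc hb hΔ (hb j)) (norm_nonneg _)
          (by positivity)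
      have n3 : ‖σ l‖ * ‖σ l‖ ≤ (‖σ c‖ * 2 ^ (r + 1)) * (‖σ c‖ * 2 ^ (r + 1)) := by
        refine (mul_le_mul n1 n2 (norm_nonneg _) (by positivity)).trans (le_of_eq ?_)
        have q1 : ‖σ A.leadingCoeff‖ * ‖σ Γ.leadingCoeff‖ = ‖σ c‖ := by
          rw [← norm_mul, ← map_mul, l1]
        have q2 : ‖σ B.leadingCoeff‖ * ‖σ Δ.leadingCoeff‖ = ‖σ c‖ := by
          rw [← norm_mul, ← map_mul, l2, map_mul, norm_mul, hp, one_mul]
        have q3 : (2 : ℝ) ^ (r + 1) = 2 ^ A.natDegree * 2 ^ Γ.natDegree := by rw [← pow_add, d1]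
        have q4 : (2 : ℝ) ^ (r + 1) = 2 ^ B.natDegree * 2 ^ Δ.natDegree := by rw [← pow_add, d2]
        calc _ = (‖σ A.leadingCoeff‖ * ‖σ Γ.leadingCoeff‖) * (‖σ B.leadingCoeff‖ *
              ‖σ Δ.leadingCoeff‖) * (2 ^ A.natDegree * 2 ^ Γ.natDegree) *
              (2 ^ B.natDegree * 2 ^ Δ.natDegree) := by ring
          _ = _ := by rw [q1, q2, ← q3, ← q4]; ring
      have n4 : (‖σ c‖ * 2 ^ (r + 1)) * (‖σ c‖ * 2 ^ (r + 1)) < ‖σ l‖ * ‖σ l‖ :=
        mul_lt_mul'' hl hl (by positivity) (by positivity)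
      linarith
    · push Not at c2
      have g1 : ∀ i, B.eval (b i) * Γ.eval (b i) ≠ 0 := by
        intro i h0
        have := ev3 i
        rw [c2, zero_mul, zero_add, h0] at this
        exact hne i this.symm
      have g2 := natDegree_eq_zero_of hc hΓ fun i => right_ne_zero_of_mul (g1 i)
      have g3 := natDegree_eq_zero_of hpc hB fun i => left_ne_zero_of_mul (g1 i)
      exact deg_contra g3 g2 (by omega) (by omega) hE ((add_comm _ _).trans h3)
  · push Not at c1
    have g0 : ∀ i, Γ.eval (b i) = 0 := fun i => (mul_eq_zero.1 (ev1 i)).resolve_left (c1 i)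
    have g1 : ∀ i, Δ.eval (b i) ≠ 0 := by
      intro i h0
      have := ev3 i
      rw [g0, h0, mul_zero, mul_zero, zero_add] at this
      exact hne i this.symm
    have g2 := natDegree_eq_zero_of hc hA c1
    have g3 := natDegree_eq_zero_of hpc hΔ g1
    exact deg_contra g2 g3 (by omega) (by omega) hE h3

end size

/-- `α`, `β` and the `a_{j,i}` are roots of unity, `α ≠ β`, the `a_{j,i}` with the same `j` are
different, and `1 ≤ m_j ≤ r_j`. -/
structure Dat.Ok {K : Type*} [Field K] {n : ℕ} (D : Dat K n) : Prop where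
  root : ∃ N : ℕ, N ≠ 0 ∧ D.al ^ N = 1 ∧ D.be ^ N = 1 ∧ ∀ j i, D.a j i ^ N = 1
  ne : D.al ≠ D.be
  inj : ∀ j, Function.Injective (D.a j)
  one_le : ∀ j, 1 ≤ D.m j
  le : ∀ j, D.m j ≤ D.r j

theorem norm_root {K : Type*} [Field K] (σ : K →+* ℂ) {x : K} {N : ℕ} (hN : N ≠ 0)
    (h : x ^ N = 1) : ‖σ x‖ = 1 := by
  refine Complex.norm_eq_one_of_pow_eq_one (n := N) ?_ hN
  rw [← map_pow, h, map_one]

section ok

variable {K : Type*} [Field K] {n : ℕ} {D : Dat K n} (hD : D.Ok)

include hD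

theorem Dat.Ok.norm_al (σ : K →+* ℂ) : ‖σ D.al‖ = 1 := by
  obtain ⟨N, hN, h1, h2, h3⟩ := hD.root
  exact norm_root σ hN h1

theorem Dat.Ok.norm_be (σ : K →+* ℂ) : ‖σ D.be‖ = 1 := by
  obtain ⟨N, hN, h1, h2, h3⟩ := hD.root
  exact norm_root σ hN h2

theorem Dat.Ok.norm_a (σ : K →+* ℂ) (j : Fin n) (i : Fin (D.r j + 1)) : ‖σ (D.a j i)‖ = 1 := by
  obtain ⟨N, hN, h1, h2, h3⟩ := hD.root
  exact norm_root σ hN (h3 j i)

theorem Dat.Ok.a_ne (j : Fin n) (i : Fin (D.r j + 1)) : D.a j i ≠ 0 := by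
  obtain ⟨N, hN, h1, h2, h3⟩ := hD.root
  intro h
  have := h3 j i
  rw [h, zero_pow hN] at this
  exact zero_ne_one this

theorem Dat.Ok.al_ne : D.al ≠ 0 := by
  obtain ⟨N, hN, h1, h2, h3⟩ := hD.root
  intro h
  rw [h, zero_pow hN] at h1
  exact zero_ne_one h1

theorem Dat.Ok.be_ne : D.be ≠ 0 := by
  obtain ⟨N, hN, h1, h2, h3⟩ := hD.root
  intro h
  rw [h, zero_pow hN] at h2
  exact zero_ne_one h2

end ok

section dom

open MvPolynomial

variable {K : Type*} [Field K] {n : ℕ} {lam : K} {D : Dat K n}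

/-- The polynomial `∏_j ∏_i (X_j - a_{j,i})`. -/
noncomputable def gG (D : Dat K n) : MvPolynomial (Fin n) K := ∏ j, ∏ i, (X j - C (D.a j i))

/-- The polynomial `∏_j X_j^{m_j}`. -/
noncomputable def mM (D : Dat K n) : MvPolynomial (Fin n) K := ∏ j, X j ^ D.m j

theorem fse_C (c : K) : finSuccEquiv K n (C c) = Polynomial.C (C c) := by
  simp [finSuccEquiv_apply]

theorem fse_ueqn : finSuccEquiv K n (ueqn lam D) =
    Polynomial.C (gG D) * Polynomial.X ^ 2 +
      Polynomial.C (C (-(D.al + D.be)) * gG D + C (-lam) * mM D) * Polynomial.X +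
      Polynomial.C (C (D.al * D.be) * gG D) := by
  unfold ueqn ufac gG mM
  simp only [map_sub, map_mul, map_prod, map_pow, finSuccEquiv_X_zero, finSuccEquiv_X_succ, fse_C,
    map_neg, map_add]
  ring

theorem not_X_dvd {a : K} (ha : a ≠ 0) (j k : Fin n) :
    ¬ (X k : MvPolynomial (Fin n) K) ∣ X j - C a := by
  rintro ⟨t, ht⟩
  have h := congrArg (MvPolynomial.eval (0 : Fin n → K)) ht
  simp at h
  exact ha h

theorem isRelPrime_gM (hD : D.Ok) : IsRelPrime (gG D) (mM D) := by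
  refine IsRelPrime.prod_left fun j _ => IsRelPrime.prod_left fun i _ =>
    IsRelPrime.prod_right fun k _ => ?_
  have hX : Prime (X k : MvPolynomial (Fin n) K) := MvPolynomial.X_prime
  exact ((hX.irreducible.isRelPrime_iff_not_dvd.2 (not_X_dvd (hD.a_ne j i) j k)).symm).pow_right

/-- the specialisation of all variables but one to `2` -/
noncomputable def sp (K : Type*) [Field K] {n : ℕ} (j0 : Fin n) :
    MvPolynomial (Fin n) K →+* Polynomial K :=
  eval₂Hom Polynomial.C fun j => if j = j0 then Polynomial.X else Polynomial.C 2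

/-- the constant factor of the specialisation of `G` -/
noncomputable def cc (D : Dat K n) (j0 : Fin n) : K :=
  ∏ j ∈ Finset.univ.erase j0, ∏ i, (2 - D.a j i)

/-- the constant factor of the specialisation of the monomial -/
noncomputable def dd (D : Dat K n) (j0 : Fin n) : K :=
  ∏ j ∈ Finset.univ.erase j0, (2 : K) ^ D.m j

theorem sp_G (j0 : Fin n) : sp K j0 (gG D) = Polynomial.C (cc D j0) *
    ∏ i, (Polynomial.X - Polynomial.C (D.a j0 i)) := by
  unfold sp gG cc
  simp only [map_prod, map_sub, coe_eval₂Hom, eval₂_X, eval₂_C]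
  rw [← Finset.mul_prod_erase Finset.univ _ (Finset.mem_univ j0), mul_comm]
  congr 1
  · refine Finset.prod_congr rfl fun j hj => Finset.prod_congr rfl fun i _ => ?_
    rw [if_neg (Finset.ne_of_mem_erase hj)]
  · simp

theorem sp_M (j0 : Fin n) : sp K j0 (mM D) =
    Polynomial.C (dd D j0) * Polynomial.X ^ D.m j0 := by
  unfold sp mM dd
  simp only [map_prod, map_pow, coe_eval₂Hom, eval₂_X]
  rw [← Finset.mul_prod_erase Finset.univ _ (Finset.mem_univ j0), mul_comm]
  congr 1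
  · refine Finset.prod_congr rfl fun j hj => ?_
    rw [if_neg (Finset.ne_of_mem_erase hj)]
  · simp

theorem sp_C (j0 : Fin n) (x : K) : sp K j0 (C x) = Polynomial.C x := by
  unfold sp
  simp

theorem cc_ne (hD : D.Ok) (σ : K →+* ℂ) (j0 : Fin n) : cc D j0 ≠ 0 := by
  refine Finset.prod_ne_zero_iff.2 fun j _ => Finset.prod_ne_zero_iff.2 fun i _ h => ?_
  have h1 := hD.norm_a σ j i
  rw [← sub_eq_zero.1 h] at h1
  rw [show σ (2 : K) = 2 from map_ofNat σ 2, Complex.norm_ofNat] at h1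
  norm_num at h1

theorem one_le_dd (σ : K →+* ℂ) (j0 : Fin n) : 1 ≤ ‖σ (dd D j0)‖ := by
  unfold dd
  rw [map_prod, norm_prod]
  have h : ∀ t : Finset (Fin n), 1 ≤ ∏ j ∈ t, ‖σ ((2 : K) ^ D.m j)‖ := by
    intro t
    induction t using Finset.induction_on with
    | empty => simp
    | insert j t hj ih =>
      rw [Finset.prod_insert hj]
      refine one_le_mul_of_one_le_of_one_le ?_ ih
      rw [map_pow, norm_pow, show σ (2 : K) = 2 from map_ofNat σ 2, Complex.norm_ofNat]
      exact one_le_pow₀ (by norm_num)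
  exact h _

theorem irreducible_fse (hD : D.Ok) (σ : K →+* ℂ) (j0 : Fin n)
    (hlam : ‖σ (cc D j0)‖ * 2 ^ (D.r j0 + 1) < ‖σ lam‖) :
    Irreducible (finSuccEquiv K n (ueqn lam D)) := by
  have hl0 : lam ≠ 0 := by
    rintro rfl
    rw [map_zero, norm_zero] at hlam
    have : 0 ≤ ‖σ (cc D j0)‖ * 2 ^ (D.r j0 + 1) := by positivity
    linarith
  have hG : gG D ≠ 0 := by
    intro h
    have h1 := congrArg (sp K j0) h
    rw [map_zero, sp_G] at h1
    exact gne (cc_ne hD σ j0) h1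
  rw [fse_ueqn]
  refine irreducible_quad' hG ?_ ?_
  · intro p h1 h2
    refine isRelPrime_gM hD h1 ?_
    have h3 : p ∣ C (-lam) * mM D := by
      have h4 : C (-lam) * mM D = (C (-(D.al + D.be)) * gG D + C (-lam) * mM D) -
        C (-(D.al + D.be)) * gG D := by ring
      rw [h4]
      exact dvd_sub h2 (Dvd.dvd.mul_left h1 _)
    have h5 : mM D = C (-lam)⁻¹ * (C (-lam) * mM D) := by
      rw [← mul_assoc, ← map_mul, inv_mul_cancel₀ (neg_ne_zero.2 hl0), map_one, one_mul]
    rw [h5]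
    exact Dvd.dvd.mul_left h3 _
  · intro α β γ δ h1 h2 h3
    have e1 := congrArg (sp K j0) h1
    have e2 := congrArg (sp K j0) h2
    have e3 := congrArg (sp K j0) h3
    rw [map_mul, sp_G] at e1
    rw [map_mul (sp K j0) β δ, map_mul (sp K j0), sp_G, sp_C, ← mul_assoc, ← Polynomial.C_mul] at e2
    rw [map_add, map_mul, map_mul, map_add, map_mul, map_mul, sp_G, sp_M, sp_C, sp_C] at e3
    refine poly_contra (σ := σ) (b := D.a j0) (m := D.m j0) (p := D.al * D.be)
      (k := -(D.al + D.be) * cc D j0) (l := -lam * dd D j0) (c := cc D j0)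
      (fun i => hD.norm_a σ j0 i) ((hD.le j0).trans (Nat.le_succ _)) (cc_ne hD σ j0) ?_ ?_ e1 e2 ?_
    · rw [map_mul, norm_mul, hD.norm_al, hD.norm_be, one_mul]
    · rw [map_mul, norm_mul, map_neg, norm_neg]
      refine hlam.trans_le ?_
      exact le_mul_of_one_le_right (norm_nonneg _) (one_le_dd σ j0)
    · rw [e3]
      simp only [map_mul, map_neg, map_add]
      ring

theorem isDomain_URing (hD : D.Ok) (σ : K →+* ℂ) (j0 : Fin n)
    (hlam : ‖σ (cc D j0)‖ * 2 ^ (D.r j0 + 1) < ‖σ lam‖) : IsDomain (URing lam D) := by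
  have hp : Prime (ueqn lam D) := by
    rw [← MulEquiv.prime_iff (finSuccEquiv K n)]
    exact (irreducible_fse hD σ j0 hlam).prime
  have : (Ideal.span {ueqn lam D}).IsPrime :=
    (Ideal.span_singleton_prime hp.ne_zero).2 hp
  exact Ideal.Quotient.isDomain (Ideal.span {ueqn lam D})

end dom

end Pool.Agent.TH333.UP
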