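import Pool.Agent.TH333.CY.Tori
import Pool.Agent.TH826.DC.Final
set_option autoImplicit false

/-!
Estimates for logarithms and logarithmic derivatives of functions on tori.
-/

namespace Pool.Agent.TH333.UP

open Pool.Agent.TH826.MK

open Pool.Agent.TH333.CY (good_inv lw_inv good_one_sub abs_log_one_sub norm_lw_one_sub)

open Pool.Agent.TH826.DC (good_hs_comp norm_lw_hs_comp)

variable {d : ℕ}

/-- `log |g| / q` is close to `x`, and the logarithmic derivatives of `g` are close to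
`2 π i w_j`. -/
structure Est (q ε x : ℝ) (w : Fin d → ℝ) (g : (Fin d → ℝ) → ℂ) : Prop where
  good : Good g
  hl : ∀ θ, |Real.log ‖g θ‖ / q - x| ≤ ε
  hw : ∀ j θ, ‖lw g j θ - 2 * Real.pi * Complex.I * w j‖ ≤ ε

variable {q ε ε' x x' : ℝ} {w w' : Fin d → ℝ} {g g' : (Fin d → ℝ) → ℂ}

theorem Est.cast (h : Est q ε x w g) (h1 : ε ≤ ε') (h2 : x = x') (h3 : w = w') (h4 : g = g') :
    Est q ε' x' w' g' := by
  subst h2 h3 h4
  exact ⟨h.good, fun θ => (h.hl θ).trans h1, fun j θ => (h.hw j θ).trans h1⟩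

theorem Est.mul (h : Est q ε x w g) (h' : Est q ε' x' w' g') :
    Est q (ε + ε') (x + x') (fun j => w j + w' j) fun θ => g θ * g' θ := by
  refine ⟨h.good.mul h'.good, fun θ => ?_, fun j θ => ?_⟩
  · rw [norm_mul, Real.log_mul (norm_ne_zero_iff.2 (h.good.ne_zero θ))
      (norm_ne_zero_iff.2 (h'.good.ne_zero θ))]
    have e : (Real.log ‖g θ‖ + Real.log ‖g' θ‖) / q - (x + x') =
        (Real.log ‖g θ‖ / q - x) + (Real.log ‖g' θ‖ / q - x') := by ring
    rw [e]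
    exact (abs_add_le _ _).trans (add_le_add (h.hl θ) (h'.hl θ))
  · rw [lw_mul h.good h'.good]
    have e : lw g j θ + lw g' j θ - 2 * Real.pi * Complex.I * ((w j + w' j : ℝ) : ℂ) =
        (lw g j θ - 2 * Real.pi * Complex.I * w j) +
        (lw g' j θ - 2 * Real.pi * Complex.I * w' j) := by
      push_cast
      ring
    rw [e]
    exact (norm_add_le _ _).trans (add_le_add (h.hw j θ) (h'.hw j θ))

theorem Est.inv (h : Est q ε x w g) :
    Est q ε (-x) (fun j => -w j) fun θ => (g θ)⁻¹ := by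
  refine ⟨good_inv h.good, fun θ => ?_, fun j θ => ?_⟩
  · rw [norm_inv, Real.log_inv]
    have e : -Real.log ‖g θ‖ / q - -x = -(Real.log ‖g θ‖ / q - x) := by ring
    rw [e, abs_neg]
    exact h.hl θ
  · rw [lw_inv h.good]
    have e : -lw g j θ - 2 * Real.pi * Complex.I * ((-w j : ℝ) : ℂ) =
        -(lw g j θ - 2 * Real.pi * Complex.I * w j) := by
      push_cast
      ring
    rw [e, norm_neg]
    exact h.hw j θ

theorem Est.const {c : ℂ} (hc : c ≠ 0) (h : |Real.log ‖c‖ / q - x| ≤ ε) :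
    Est q ε x (fun _ : Fin d => 0) fun _ => c := by
  refine ⟨good_const hc, fun _ => h, fun _ _ => ?_⟩
  rw [lw_const]
  simp only [Complex.ofReal_zero, mul_zero, sub_zero, norm_zero]
  exact (abs_nonneg _).trans h

theorem Est.div (h : Est q ε x w g) (h' : Est q ε' x' w' g') :
    Est q (ε + ε') (x - x') (fun j => w j - w' j) fun θ => g θ / g' θ :=
  (h.mul h'.inv).cast le_rfl (sub_eq_add_neg _ _).symm
    (funext fun j => (sub_eq_add_neg _ _).symm) (funext fun θ => (div_eq_mul_inv _ _).symm)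

theorem Est.prod {ι : Type*} (s : Finset ι) {ε x : ι → ℝ} {w : ι → Fin d → ℝ}
    {g : ι → (Fin d → ℝ) → ℂ} (h : ∀ i ∈ s, Est q (ε i) (x i) (w i) (g i)) :
    Est q (∑ i ∈ s, ε i) (∑ i ∈ s, x i) (fun j => ∑ i ∈ s, w i j) fun θ => ∏ i ∈ s, g i θ := by
  classical
  induction s using Finset.induction_on with
  | empty =>
    refine (Est.const (x := 0) (ε := 0) one_ne_zero ?_).cast ?_ ?_ ?_ ?_ <;> simp
  | insert i s hi ih =>
    refine ((h i (Finset.mem_insert_self _ _)).mul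
      (ih fun k hk => h k (Finset.mem_insert_of_mem hk))).cast ?_ ?_ ?_ ?_
    · rw [Finset.sum_insert hi]
    · rw [Finset.sum_insert hi]
    · funext j
      rw [Finset.sum_insert hi]
    · funext θ
      rw [Finset.prod_insert hi]

theorem Est.pow (h : Est q ε x w g) (m : ℕ) :
    Est q (m * ε) (m * x) (fun j => m * w j) fun θ => g θ ^ m := by
  refine (Est.prod (Finset.range m) (fun i _ => h)).cast ?_ ?_ ?_ ?_ <;> simp

/-- `1 - k / F` for large `F` -/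
theorem est_one_sub {F : (Fin d → ℝ) → ℂ} {B E k0 : ℝ} (hF : Good F) (hB : ∀ θ, B ≤ ‖F θ‖)
    (hE : ∀ j θ, ‖lw F j θ‖ ≤ E) {k : ℂ} (hk : ‖k‖ ≤ k0) (hB0 : 0 < B) (h1 : 2 * k0 ≤ B)
    (h2 : 2 * k0 * E ≤ ε * B) (hq : 0 < q) (h3 : 1 ≤ ε * q) :
    Est q ε 0 (fun _ => 0) fun θ => 1 - k * (F θ)⁻¹ := by
  have hk0 : 0 ≤ k0 := (norm_nonneg _).trans hk
  have hsm : ∀ θ, ‖k * (F θ)⁻¹‖ ≤ k0 / B := by
    intro θ
    rw [norm_mul, norm_inv, ← div_eq_mul_inv]
    exact div_le_div₀ hk0 hk hB0 (hB θ)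
  have hs2 : k0 / B ≤ 1 / 2 := by
    rw [div_le_iff₀ hB0]
    linarith
  have hs : ∀ θ, ‖k * (F θ)⁻¹‖ ≤ 1 / 2 := fun θ => (hsm θ).trans hs2
  refine ⟨good_one_sub k (good_inv hF) hs, fun θ => ?_, fun j θ => ?_⟩
  · rw [sub_zero, abs_div, abs_of_pos hq, div_le_iff₀ hq]
    exact (abs_log_one_sub (hs θ)).trans h3
  · simp only [Complex.ofReal_zero, mul_zero, sub_zero]
    refine (norm_lw_one_sub k (good_inv hF) hs j θ).trans ?_
    rw [lw_inv hF, norm_neg]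
    have h4 : 2 * ‖k * (F θ)⁻¹‖ * ‖lw F j θ‖ ≤ 2 * (k0 / B) * E :=
      mul_le_mul (mul_le_mul_of_nonneg_left (hsm θ) (by norm_num)) (hE j θ) (norm_nonneg _)
        (by positivity)
    refine h4.trans ?_
    have h5 : 2 * (k0 / B) * E = 2 * k0 * E / B := by ring
    rw [h5, div_le_iff₀ hB0]
    exact h2

/-- `hs F` for large `F` -/
theorem est_hs {F : (Fin d → ℝ) → ℂ} {B E : ℝ} (hF : Good F) (hB : ∀ θ, B ≤ ‖F θ‖)
    (hE : ∀ j θ, ‖lw F j θ‖ ≤ E) (hB4 : 4 ≤ B)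
    (h2 : 4 * E ≤ ε * B) (hε : 0 ≤ ε) (hq : 0 < q) (h3 : 1 ≤ ε * q) :
    Est q ε 0 (fun _ => 0) fun θ => hs (F θ) := by
  have h4 : ∀ θ, 4 ≤ ‖F θ‖ := fun θ => hB4.trans (hB θ)
  refine ⟨good_hs_comp hF h4, fun θ => ?_, fun j θ => ?_⟩
  · rw [sub_zero, abs_div, abs_of_pos hq, div_le_iff₀ hq]
    refine le_trans ((abs_log_norm_hs (h4 θ)).trans ?_) h3
    rw [div_le_one (by have := h4 θ; positivity)]
    nlinarith [h4 θ]
  · simp only [Complex.ofReal_zero, mul_zero, sub_zero]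
    refine (norm_lw_hs_comp hF h4 j θ).trans ?_
    have h5 : (0 : ℝ) < ‖F θ‖ ^ 2 := by have := h4 θ; positivity
    rw [div_mul_eq_mul_div, div_le_iff₀ h5]
    have h6 : 4 * ‖lw F j θ‖ ≤ 4 * E := by linarith [hE j θ]
    have h7 : ε * B ≤ ε * ‖F θ‖ ^ 2 := by
      refine mul_le_mul_of_nonneg_left ?_ hε
      nlinarith [h4 θ, hB θ]
    linarith

theorem Est.big {F : (Fin d → ℝ) → ℂ} (h : Est q ε 1 w F) (hq : 0 < q) (hε : ε ≤ 1 / 2) :
    (∀ θ, q / 2 ≤ ‖F θ‖) ∧ ∀ j θ, ‖lw F j θ‖ ≤ 2 * Real.pi * ∑ i, |w i| + 1 := by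
  constructor
  · intro θ
    have h1 := (abs_le.1 (h.hl θ)).1
    have h2 : q / 2 ≤ Real.log ‖F θ‖ := by
      have h3 : 1 / 2 ≤ Real.log ‖F θ‖ / q := by linarith
      rw [le_div_iff₀ hq] at h3
      linarith
    have h4 := Real.log_le_sub_one_of_pos (norm_pos_iff.2 (h.good.ne_zero θ))
    linarith
  · intro j θ
    have h1 := h.hw j θ
    have h2 := norm_sub_norm_le (lw F j θ) (2 * Real.pi * Complex.I * w j)
    have h3 : ‖(2 * Real.pi * Complex.I * w j : ℂ)‖ = 2 * Real.pi * |w j| := by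
      rw [norm_mul, norm_mul, norm_mul, Complex.norm_I, Complex.norm_real, Complex.norm_real,
        Complex.norm_ofNat, mul_one, Real.norm_eq_abs, Real.norm_eq_abs, abs_of_pos Real.pi_pos]
    have h4 : |w j| ≤ ∑ i, |w i| :=
      Finset.single_le_sum (f := fun i => |w i|) (fun i _ => abs_nonneg _) (Finset.mem_univ j)
    have h5 := Real.pi_pos
    have h6 : 2 * Real.pi * |w j| ≤ 2 * Real.pi * ∑ i, |w i| :=
      mul_le_mul_of_nonneg_left h4 (by positivity)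
    linarith

/-- The root `u` of `γ (u² + 1) = (F + κ) u` for large `F`. -/
theorem exists_u (Ω : Fin d → ℝ) (κ γ : ℂ) (hγ : ‖γ‖ = 1) {ε : ℝ} (hε : 0 < ε)
    (hε1 : ε ≤ 1 / 8) :
    ∃ M : ℝ, 0 < M ∧ ∀ q, M ≤ q → ∀ F : (Fin d → ℝ) → ℂ, Est q ε 1 Ω F →
      (∀ θ i, F (θ + Pi.single i 1) = F θ) →
      ∃ u : (Fin d → ℝ) → ℂ, Est q (3 * ε) 1 Ω u ∧ (∀ θ i, u (θ + Pi.single i 1) = u θ) ∧
        (∀ θ, γ * (u θ ^ 2 + 1) = (F θ + κ) * u θ) ∧
        ∀ k : ℂ, ‖k‖ = 1 → Est q ε 0 (fun _ => 0) fun θ => 1 - k * (u θ)⁻¹ := by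
  set E : ℝ := 2 * Real.pi * ∑ i, |Ω i| + 1 with hE
  have hE0 : 0 < E := by
    have h1 : 0 ≤ ∑ i, |Ω i| := Finset.sum_nonneg fun i _ => abs_nonneg _
    have h2 := Real.pi_pos
    positivity
  set k0 : ℝ := ‖κ‖ + 1 with hk0
  have hk1 : 0 < k0 := by positivity
  set M : ℝ := 2 * (2 * k0 + 2 * k0 * E / ε + 4 + 4 * E / ε) + 1 / ε with hM
  have hM1 : 0 < 2 * k0 * E / ε := by positivity
  have hM2 : 0 < 4 * E / ε := by positivity
  have hM3 : 0 < 1 / ε := by positivity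
  have hγ0 : γ ≠ 0 := by
    rintro rfl
    rw [norm_zero] at hγ
    exact zero_ne_one hγ
  refine ⟨M, by linarith, fun q hq F hF hFp => ?_⟩
  have hq0 : 0 < q := by linarith
  have hB0 : 0 < q / 2 := by linarith
  have hB1 : 2 * k0 ≤ q / 2 := by linarith
  have hB4 : 4 ≤ q / 2 := by linarith
  have hB2 : 2 * k0 * E ≤ ε * (q / 2) := by
    have h1 : 2 * k0 * E / ε ≤ q / 2 := by linarith
    rw [div_le_iff₀ hε] at h1
    linarith
  have hB3 : 4 * E ≤ ε * (q / 2) := by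
    have h1 : 4 * E / ε ≤ q / 2 := by linarith
    rw [div_le_iff₀ hε] at h1
    linarith
  have hq1 : 1 ≤ ε * q := by
    have h1 : 1 / ε ≤ q := by linarith
    rw [div_le_iff₀ hε] at h1
    linarith
  obtain ⟨b1, b2⟩ := hF.big hq0 (by linarith)
  have e1 : Est q ε 0 (fun _ => 0) fun θ => 1 - (-κ) * (F θ)⁻¹ :=
    est_one_sub hF.good b1 b2 (by rw [norm_neg]; linarith) hB0 hB1 hB2 hq0 hq1
  have hF0 : ∀ θ, F θ ≠ 0 := hF.good.ne_zero
  have e2 : Est q 0 0 (fun _ : Fin d => 0) fun _ => γ⁻¹ := by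
    refine Est.const (inv_ne_zero hγ0) ?_
    rw [norm_inv, hγ, inv_one, Real.log_one, zero_div, sub_zero, abs_zero]
  have e3 : Est q (2 * ε) 1 Ω fun θ => γ⁻¹ * (F θ + κ) := by
    refine (e2.mul (hF.mul e1)).cast (by linarith) (by ring) ?_ ?_
    · funext j
      ring
    · funext θ
      have := hF0 θ
      field_simp
      ring
  obtain ⟨b3, b4⟩ := e3.big hq0 (by linarith)
  have e4 : Est q ε 0 (fun _ => 0) fun θ => hs (γ⁻¹ * (F θ + κ)) :=
    est_hs e3.good b3 b4 hB4 hB3 hε.le hq0 hq1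
  have e5 : Est q (3 * ε) 1 Ω fun θ => zeta (γ⁻¹ * (F θ + κ)) := by
    refine (e3.mul e4).cast (by linarith) (by ring) ?_ ?_
    · funext j
      ring
    · rfl
  obtain ⟨b5, b6⟩ := e5.big hq0 (by linarith)
  refine ⟨fun θ => zeta (γ⁻¹ * (F θ + κ)), e5, fun θ i => ?_, fun θ => ?_, fun k hk => ?_⟩
  · simp only [hFp]
  · have h1 := zeta_eq (w := γ⁻¹ * (F θ + κ)) (by linarith [b3 θ])
    have h2 : γ * γ⁻¹ = 1 := mul_inv_cancel₀ hγ0
    linear_combination γ * h1 + (F θ + κ) * zeta (γ⁻¹ * (F θ + κ)) * h2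
  · refine est_one_sub (k0 := k0) e5.good b5 b6 ?_ hB0 hB1 hB2 hq0 hq1
    rw [hk]
    have := norm_nonneg κ
    linarith

section det

/-- the matrix of the orders -/
noncomputable def RR (x : ℝ) (w e : Fin d → ℝ) : Matrix (Fin (d + 1)) (Fin (d + 1)) ℝ :=
  Matrix.of (Fin.cons (Fin.cons x w) fun l => Fin.cons 0 fun i => if i = l then e l else 0)

theorem det_RR (x : ℝ) (w e : Fin d → ℝ) : (RR x w e).det = x * ∏ l, e l := by
  rw [Matrix.det_succ_column_zero, Fin.sum_univ_succ]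
  have h0 : RR x w e 0 0 = x := rfl
  have h1 : ∀ l : Fin d, RR x w e l.succ 0 = 0 := fun l => rfl
  have h2 : (RR x w e).submatrix (Fin.succAbove 0) Fin.succ = Matrix.diagonal e := by
    ext l i
    rw [Matrix.submatrix_apply, Fin.succAbove_zero, Matrix.diagonal_apply]
    show (if i = l then e l else 0) = _
    by_cases h : l = i
    · rw [if_pos h, if_pos h.symm]
    · rw [if_neg h, if_neg fun h' => h h'.symm]
  simp only [h1, mul_zero, zero_mul, Finset.sum_const_zero, add_zero]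
  rw [h0, h2, Matrix.det_diagonal]
  simp

theorem reg_close (x : ℝ) (w e : Fin d → ℝ) {ε : ℝ} (hε : 0 < ε) :
    ∃ δ : ℝ, 0 < δ ∧ ∀ q : ℝ, q ≠ 0 → ∀ g : Fin (d + 1) → (Fin d → ℝ) → ℂ,
      Est q δ x w (g 0) →
      (∀ l : Fin d, Est q δ 0 (fun i => if i = l then e l else 0) (g l.succ)) →
      |pairing g / q - (2 * Real.pi) ^ d * (x * ∏ l, e l)| ≤ ε := by
  obtain ⟨δ, hδ, h⟩ := Pool.Agent.TH826.SX.pairing_close (RR x w e) hε
  rw [det_RR] at h
  refine ⟨δ / 2, by linarith, fun q hq g h0 hs => ?_⟩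
  refine h g q hq (fun l => ?_) (fun l θ => ?_) (fun l j θ => ?_)
  · refine Fin.cases ?_ (fun l => ?_) l
    · exact h0.good
    · exact (hs l).good
  · refine Fin.cases ?_ (fun l => ?_) l
    · exact (h0.hl θ).trans_lt (by linarith)
    · exact ((hs l).hl θ).trans_lt (by linarith)
  · refine Fin.cases ?_ (fun l => ?_) l
    · exact (h0.hw j θ).trans_lt (by linarith)
    · exact ((hs l).hw j θ).trans_lt (by linarith)

end det

end Pool.Agent.TH333.UP
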