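import Pool.Agent.TH333.UP.Reg
import Mathlib.NumberTheory.NumberField.InfinitePlace.Basic
set_option autoImplicit false

/-!
The regulators of all symbols on the tori over two complex embeddings, and powers of units.
-/

namespace Pool.Agent.TH333.UP

open Pool.Agent.TH826.MK

open Pool.Agent.TH826.SX (det_ne_zero_near)

variable {K : Type*} [Field K] {n : ℕ} {D : Dat K n}

/-- the diagonal entries of the limit matrix -/
noncomputable def sg (D : Dat K n) : Option ((j : Fin n) → Fin (D.r j)) → ℝ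
  | none => (2 * Real.pi) ^ n
  | some _ => -(2 * Real.pi) ^ n

theorem exists_tori (hD : D.Ok) (σ τ : K →+* ℂ) :
    ∃ M : ℝ, 0 < M ∧ ∀ lam : K, M ≤ Real.log ‖σ lam‖ → M ≤ -Real.log ‖τ lam‖ →
      ∃ Γ : Option ((j : Fin n) → Fin (D.r j)) → Torus (UOpen lam D) n,
        (∀ θ x, (Γ none).e θ (ucst lam D x) = σ x) ∧
        (∀ k θ x, (Γ (some k)).e θ (ucst lam D x) = τ x) ∧
        (Matrix.of fun t o : Option ((j : Fin n) → Fin (D.r j)) =>
          (Γ t).reg (symb (uent lam D o))).det ≠ 0 := by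
  classical
  have hpi := Real.pi_pos
  have hlead : (Matrix.diagonal (sg D)).det ≠ 0 := by
    rw [Matrix.det_diagonal]
    refine Finset.prod_ne_zero_iff.2 fun o _ => ?_
    rcases o with _ | k
    · exact (by positivity : (0 : ℝ) < (2 * Real.pi) ^ n).ne'
    · exact neg_ne_zero.2 (by positivity : (0 : ℝ) < (2 * Real.pi) ^ n).ne'
  obtain ⟨δ, hδ, hdet⟩ := det_ne_zero_near _ hlead
  have hδ2 : 0 < δ / 2 := by linarith
  obtain ⟨M1, hM1, h1⟩ := exists_large hD σ hδ2
  choose M2 hM2 h2 using fun k : (j : Fin n) → Fin (D.r j) => exists_small hD τ k hδ2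
  have hsum : ∀ k, M2 k ≤ ∑ k, M2 k := fun k =>
    Finset.single_le_sum (f := M2) (fun k _ => (hM2 k).le) (Finset.mem_univ k)
  have hsum0 : 0 ≤ ∑ k, M2 k := Finset.sum_nonneg fun k _ => (hM2 k).le
  refine ⟨M1 + ∑ k, M2 k, by linarith, fun lam hl1 hl2 => ?_⟩
  obtain ⟨Γ1, hΓ1, hr1⟩ := h1 lam (by linarith)
  choose Γ2 hΓ2 hr2 using fun k => h2 k lam (by linarith [hsum k])
  have hq1 : 0 < Real.log ‖σ lam‖ := by linarith
  have hq2 : 0 < -Real.log ‖τ lam‖ := by linarith
  refine ⟨fun t => Option.rec Γ1 Γ2 t, hΓ1, hΓ2, ?_⟩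
  set q : Option ((j : Fin n) → Fin (D.r j)) → ℝ := fun t =>
    Option.rec (Real.log ‖σ lam‖) (fun _ => -Real.log ‖τ lam‖) t with hq
  have hq0 : ∀ t, q t ≠ 0 := by
    intro t
    rcases t with _ | k
    · exact hq1.ne'
    · exact hq2.ne'
  have hmain : (Matrix.of fun t o : Option ((j : Fin n) → Fin (D.r j)) =>
      (Option.rec Γ1 Γ2 t : Torus (UOpen lam D) n).reg (symb (uent lam D o)) / q t).det ≠ 0 := by
    refine hdet _ fun t o => ?_
    rw [Matrix.of_apply, Matrix.diagonal_apply]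
    rcases t with _ | k
    · refine lt_of_le_of_lt ?_ (show δ / 2 < δ by linarith)
      have e : (if none = o then sg D none else 0) = (2 * Real.pi) ^ n *
          (if o = none then (1 : ℝ) else 0) := by
        by_cases h : o = none
        · rw [if_pos h.symm, if_pos h, mul_one]
          rfl
        · rw [if_neg fun h' => h h'.symm, if_neg h, mul_zero]
      rw [e]
      exact hr1 o
    · refine lt_of_le_of_lt ?_ (show δ / 2 < δ by linarith)
      have e : (if some k = o then sg D (some k) else 0) = (2 * Real.pi) ^ n *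
          (if o = some k then (-1 : ℝ) else 0) := by
        by_cases h : o = some k
        · rw [if_pos h.symm, if_pos h, mul_neg_one]
          rfl
        · rw [if_neg fun h' => h h'.symm, if_neg h, mul_zero]
      rw [e]
      exact hr2 k o
  have h3 : (Matrix.of fun t o : Option ((j : Fin n) → Fin (D.r j)) =>
      (Option.rec Γ1 Γ2 t : Torus (UOpen lam D) n).reg (symb (uent lam D o))) =
      Matrix.of fun t o => q t * (Matrix.of fun t o : Option ((j : Fin n) → Fin (D.r j)) =>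
      (Option.rec Γ1 Γ2 t : Torus (UOpen lam D) n).reg (symb (uent lam D o)) / q t) t o := by
    ext t o
    rw [Matrix.of_apply, Matrix.of_apply, Matrix.of_apply, mul_div_cancel₀ _ (hq0 t)]
  show (Matrix.of fun t o : Option ((j : Fin n) → Fin (D.r j)) =>
      (Option.rec Γ1 Γ2 t : Torus (UOpen lam D) n).reg (symb (uent lam D o))).det ≠ 0
  rw [h3, Matrix.det_mul_column]
  exact mul_ne_zero (Finset.prod_ne_zero_iff.2 fun t _ => hq0 t) hmain

/-- A unit which is not a root of unity has a conjugate outside the unit circle. -/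
theorem exists_gt [NumberField K] {e : K} (he : IsIntegral ℤ e)
    (he0 : e ≠ 0) (hne : ∀ n : ℕ, 0 < n → e ^ n ≠ 1) : ∃ σ : K →+* ℂ, 1 < ‖σ e‖ := by
  by_contra hcon
  push Not at hcon
  obtain ⟨n, hn, h⟩ :=
    NumberField.Embeddings.pow_eq_one_of_norm_le_one K ℂ he0 he fun φ => hcon φ
  exact hne n hn h

/-- Powers of a unit of infinite order are large at one place and small at another place. -/
theorem exists_pow [NumberField K] {e : K} (he : IsIntegral ℤ e)
    (he' : IsIntegral ℤ e⁻¹) (hne : ∀ n : ℕ, 0 < n → e ^ n ≠ 1) (he0 : e ≠ 0) (c : ℝ) :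
    ∃ (σ τ : K →+* ℂ) (M : ℕ), ∀ m ≥ M, c ≤ ‖σ (e ^ m)‖ ∧ ‖τ (e ^ m)‖ * c ≤ 1 := by
  obtain ⟨σ, hσ⟩ := exists_gt he he0 hne
  obtain ⟨τ, hτ⟩ := exists_gt he' (inv_ne_zero he0) fun n hn h => by
    rw [inv_pow, inv_eq_one] at h
    exact hne n hn h
  obtain ⟨M1, hM1⟩ := pow_unbounded_of_one_lt c hσ
  obtain ⟨M2, hM2⟩ := pow_unbounded_of_one_lt c hτ
  refine ⟨σ, τ, max M1 M2, fun m hm => ⟨?_, ?_⟩⟩
  · rw [map_pow, norm_pow]
    exact hM1.le.trans (pow_le_pow_right₀ hσ.le ((le_max_left _ _).trans hm))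
  · have h1 : c ≤ ‖τ e⁻¹‖ ^ m :=
      hM2.le.trans (pow_le_pow_right₀ hτ.le ((le_max_right _ _).trans hm))
    have h2 : ‖τ (e ^ m)‖ * ‖τ e⁻¹‖ ^ m = 1 := by
      rw [← norm_pow, ← map_pow, ← norm_mul, ← map_mul, ← mul_pow, mul_inv_cancel₀ he0,
        one_pow, map_one, norm_one]
    rw [← h2]
    exact mul_le_mul_of_nonneg_left h1 (norm_nonneg _)

end Pool.Agent.TH333.UP
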