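import Pool.Agent.TH333.UP.Tor
set_option autoImplicit false

/-!
The regulators of the symbols on the tori.
-/

namespace Pool.Agent.TH333.UP

open Pool.Agent.TH826.MK

variable {K : Type*} [Field K] {n : ℕ} {D : Dat K n}

theorem fn_div {A : Type*} [CommRing A] {d : ℕ} (Γ : Torus A d) (x y : Aˣ) :
    Γ.fn ((x / y : Aˣ) : A) = fun θ => Γ.fn (x : A) θ / Γ.fn (y : A) θ := by
  funext θ
  rw [eq_div_iff ((Γ.good y).ne_zero θ)]
  unfold Torus.fn
  rw [← map_mul, ← Units.val_mul, div_mul_cancel]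

theorem exists_gamma (hD : D.Ok) (σ : K →+* ℂ) :
    ∃ γ : ℂ, γ ^ 2 = σ D.al * σ D.be ∧ ‖γ‖ = 1 ∧ γ ≠ 0 := by
  obtain ⟨γ, hγ⟩ := IsAlgClosed.exists_pow_nat_eq (σ D.al * σ D.be) (n := 2) (by norm_num)
  have h1 : ‖γ‖ ^ 2 = 1 := by
    rw [← norm_pow, hγ, norm_mul, hD.norm_al, hD.norm_be, one_mul]
  have h2 : ‖γ‖ = 1 := by
    have h3 := norm_nonneg γ
    nlinarith
  refine ⟨γ, hγ, h2, ?_⟩
  rintro rfl
  rw [norm_zero] at h2
  exact zero_ne_one h2

theorem contDiff_cons {d : ℕ} {f : (Fin d → ℝ) → ℂ} {z : (Fin d → ℝ) → (Fin n → ℂ)}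
    (hf : ContDiff ℝ 2 f) (hz : ContDiff ℝ 2 z) :
    ContDiff ℝ 2 fun θ => (Fin.cons (f θ) (z θ) : Fin (n + 1) → ℂ) := by
  refine contDiff_pi.2 fun k => ?_
  refine Fin.cases ?_ (fun j => ?_) k
  · exact hf
  · exact contDiff_pi.1 hz j

/-- The torus at the place where `λ` is large. -/
theorem exists_large (hD : D.Ok) (σ : K →+* ℂ) {ε : ℝ} (hε : 0 < ε) :
    ∃ M : ℝ, 0 < M ∧ ∀ lam : K, M ≤ Real.log ‖σ lam‖ →
      ∃ Γ : Torus (UOpen lam D) n, (∀ θ x, Γ.e θ (ucst lam D x) = σ x) ∧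
        ∀ o : Option ((j : Fin n) → Fin (D.r j)),
          |Γ.reg (symb (uent lam D o)) / Real.log ‖σ lam‖ -
            (2 * Real.pi) ^ n * (if o = none then 1 else 0)| ≤ ε := by
  classical
  obtain ⟨γ, hγ2, hγ1, hγ0⟩ := exists_gamma hD σ
  obtain ⟨A, Ω, hA, hPP⟩ := est_PP D fun _ => none
  obtain ⟨δ1, hδ1, hreg1⟩ := reg_close 1 Ω (fun _ => 1) hε
  obtain ⟨δ2, hδ2, hreg2⟩ := reg_close 0 (fun _ : Fin n => 0) (fun _ => 0) hε
  set δ : ℝ := min δ1 δ2 with hδ
  have hδ0 : 0 < δ := lt_min hδ1 hδ2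
  set ε0 : ℝ := min (δ / 3) (1 / 8) with hε0
  have hε0' : 0 < ε0 := lt_min (by linarith) (by norm_num)
  have hε8 : ε0 ≤ 1 / 8 := min_le_right _ _
  have hε3 : 3 * ε0 ≤ δ := by
    have := min_le_left (δ / 3) (1 / 8 : ℝ)
    linarith
  set η : ℝ := ε0 / (A + 1) with hη
  have hη0 : 0 < η := div_pos hε0' (by linarith)
  have hη1 : (A + 1) * η = ε0 := by
    rw [hη]
    field_simp
  have hAη : A * η ≤ ε0 := by linarith
  have hηε : η ≤ ε0 := by
    have : 0 < A * η := mul_pos hA hη0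
    linarith
  obtain ⟨M1, hM1, hu⟩ := exists_u Ω (σ D.al + σ D.be) γ hγ1 hε0' hε8
  obtain ⟨C1, z, hC1, hzc, hzp, hz⟩ := exists_vertex hD σ (fun _ => none) hη0
  have hC2 : 0 ≤ C1 / η := div_nonneg hC1 hη0.le
  refine ⟨M1 + C1 / η, by linarith, fun lam hlam => ?_⟩
  set q : ℝ := Real.log ‖σ lam‖ with hq
  have hq0 : 0 < q := by linarith
  have hl0 : σ lam ≠ 0 := by
    intro h0
    rw [hq, h0, norm_zero, Real.log_zero] at hq0
    exact lt_irrefl _ hq0
  have hCq : C1 ≤ η * q := by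
    have h1 : C1 / η ≤ q := by linarith
    rw [div_le_iff₀ hη0] at h1
    linarith
  have hz' := hz q hq0 hCq
  have hP := hPP σ q η hη0.le z hz'
  have hF : Est q ε0 1 Ω fun θ => σ lam * PP σ D (z θ) := by
    refine ((Est.const (x := 1) (ε := 0) hl0 ?_).mul hP).cast (by linarith) (by ring) ?_ rfl
    · rw [← hq, div_self hq0.ne', sub_self, abs_zero]
    · funext j
      ring
  obtain ⟨u, hu1, hup, hu2, hu3⟩ := hu q (by linarith) _ hF fun θ i => by simp only [hzp]
  have hz0 : ∀ θ j, z θ j ≠ 0 := by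
    intro θ j
    have h1 := (hz' j none).good.ne_zero θ
    have h2 : z θ j - σ 0 ≠ 0 := h1
    rwa [map_zero, sub_zero] at h2
  have hza : ∀ θ j i, z θ j - σ (D.a j i) ≠ 0 := fun θ j i => (hz' j (some i)).good.ne_zero θ
  have hu0 : ∀ θ, u θ ≠ 0 := hu1.good.ne_zero
  have hx : ∀ θ, UPt σ lam D (Fin.cons (γ * u θ) (z θ)) := fun θ =>
    pt_large hγ0 hγ2 (hu0 θ) (hF.good.ne_zero θ) rfl (hu2 θ) (hz0 θ) (hza θ)
  have hpc : ContDiff ℝ 2 fun θ => (Fin.cons (γ * u θ) (z θ) : Fin (n + 1) → ℂ) :=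
    contDiff_cons (contDiff_const.mul hu1.good.smooth) hzc
  have hpp : ∀ θ i, (Fin.cons (γ * u (θ + Pi.single i 1)) (z (θ + Pi.single i 1)) :
      Fin (n + 1) → ℂ) = Fin.cons (γ * u θ) (z θ) := fun θ i => by rw [hup, hzp]
  refine ⟨mkU _ hpc hpp hx, fun θ x => mkU_ucst _ hpc hpp hx θ x, fun o => ?_⟩
  rw [Torus.reg_symb]
  rcases o with _ | k
  · have h1 := hreg1 q hq0.ne' (fun l => (mkU _ hpc hpp hx).fn
      (uent lam D none l : UOpen lam D)) ?_ ?_
    · simp only [Finset.prod_const_one, mul_one] at h1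
      rw [if_pos rfl, mul_one]
      exact h1
    · show Est q δ1 1 Ω ((mkU _ hpc hpp hx).fn (ux lam D 0 : UOpen lam D))
      rw [mkU_ux]
      refine ((Est.const (x := 0) (ε := 0) hγ0 ?_).mul hu1).cast ?_ (by ring) ?_ rfl
      · rw [hγ1, Real.log_one, zero_div, sub_zero, abs_zero]
      · have := min_le_left δ1 δ2
        linarith
      · funext j
        ring
    · intro l
      show Est q δ1 0 _ ((mkU _ hpc hpp hx).fn (ux lam D l.succ : UOpen lam D))
      rw [mkU_ux]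
      refine (hz' l none).cast ?_ rfl ?_ ?_
      · have := min_le_left δ1 δ2
        linarith
      · funext i
        simp
      · funext θ
        show z θ l - σ 0 = z θ l
        rw [map_zero, sub_zero]
  · have h1 := hreg2 q hq0.ne' (fun l => (mkU _ hpc hpp hx).fn
      (uent lam D (some k) l : UOpen lam D)) ?_ ?_
    · simp only [zero_mul] at h1
      rw [if_neg (by simp)]
      exact h1
    · show Est q δ2 0 _ ((mkU _ hpc hpp hx).fn ((ual lam D / ube lam D : (UOpen lam D)ˣ) :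
        UOpen lam D))
      rw [fn_div, mkU_ual, mkU_ube]
      have hk1 : ‖σ D.al / γ‖ = 1 := by rw [norm_div, hD.norm_al, hγ1, div_one]
      have hk2 : ‖σ D.be / γ‖ = 1 := by rw [norm_div, hD.norm_be, hγ1, div_one]
      refine ((hu3 _ hk1).div (hu3 _ hk2)).cast ?_ (by ring) ?_ ?_
      · have := min_le_right δ1 δ2
        linarith
      · funext j
        ring
      · funext θ
        show (1 - σ D.al / γ * (u θ)⁻¹) / (1 - σ D.be / γ * (u θ)⁻¹) =
          (γ * u θ - σ D.al) / (γ * u θ - σ D.be)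
        have h2 := hu0 θ
        have e1 : γ * u θ - σ D.al = (γ * u θ) * (1 - σ D.al / γ * (u θ)⁻¹) := by
          field_simp
        have e2 : γ * u θ - σ D.be = (γ * u θ) * (1 - σ D.be / γ * (u θ)⁻¹) := by
          field_simp
        rw [e1, e2, mul_div_mul_left _ _ (mul_ne_zero hγ0 h2)]
    · intro l
      show Est q δ2 0 _ ((mkU _ hpc hpp hx).fn
        ((ua lam D l (k l).castSucc / ua lam D l (Fin.last (D.r l)) : (UOpen lam D)ˣ) :
        UOpen lam D))
      rw [fn_div, mkU_ua, mkU_ua]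
      refine ((hz' l (some (k l).castSucc)).div (hz' l (some (Fin.last (D.r l))))).cast
        ?_ (by ring) ?_ rfl
      · have := min_le_right δ1 δ2
        linarith
      · funext i
        simp

/-- The torus at the vertex `k`, at the place where `λ` is small. -/
theorem exists_small (hD : D.Ok) (τ : K →+* ℂ) (k : (j : Fin n) → Fin (D.r j)) {ε : ℝ}
    (hε : 0 < ε) :
    ∃ M : ℝ, 0 < M ∧ ∀ lam : K, M ≤ -Real.log ‖τ lam‖ →
      ∃ Γ : Torus (UOpen lam D) n, (∀ θ x, Γ.e θ (ucst lam D x) = τ x) ∧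
        ∀ o : Option ((j : Fin n) → Fin (D.r j)),
          |Γ.reg (symb (uent lam D o)) / -Real.log ‖τ lam‖ -
            (2 * Real.pi) ^ n * (if o = some k then -1 else 0)| ≤ ε := by
  classical
  obtain ⟨γ, hγ2, hγ1, hγ0⟩ := exists_gamma hD τ
  obtain ⟨A, Ω, hA, hPP⟩ := est_PP D fun j => some (k j).castSucc
  choose δk hδk hregk using fun k' : (j : Fin n) → Fin (D.r j) =>
    reg_close (-1) Ω (fun j => if k j = k' j then 1 else 0) hε
  obtain ⟨δ2, hδ2, hreg2⟩ := reg_close 0 (fun _ : Fin n => 0) (fun _ => 0) hε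
  have : Nonempty ((j : Fin n) → Fin (D.r j)) := ⟨k⟩
  obtain ⟨k1, hk1⟩ := Finite.exists_min δk
  set δ : ℝ := min (δk k1) δ2 with hδ
  have hδ0 : 0 < δ := lt_min (hδk k1) hδ2
  have hδle : ∀ k', δ ≤ δk k' := fun k' => (min_le_left _ _).trans (hk1 k')
  have hδle2 : δ ≤ δ2 := min_le_right _ _
  set ε0 : ℝ := min (δ / 3) (1 / 8) with hε0
  have hε0' : 0 < ε0 := lt_min (by linarith) (by norm_num)
  have hε8 : ε0 ≤ 1 / 8 := min_le_right _ _
  have hε3 : 3 * ε0 ≤ δ := by
    have := min_le_left (δ / 3) (1 / 8 : ℝ)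
    linarith
  set η : ℝ := ε0 / (A + 1) with hη
  have hη0 : 0 < η := div_pos hε0' (by linarith)
  have hη1 : (A + 1) * η = ε0 := by
    rw [hη]
    field_simp
  have hAη : A * η ≤ ε0 := by linarith
  have hηε : η ≤ ε0 := by
    have : 0 < A * η := mul_pos hA hη0
    linarith
  have hne : τ D.al - τ D.be ≠ 0 := by
    rw [Ne, sub_eq_zero]
    exact fun h => hD.ne (τ.injective h)
  have hal : τ D.al ≠ 0 := (map_ne_zero τ).2 hD.al_ne
  obtain ⟨M1, hM1, hu⟩ := exists_u (fun j => -Ω j) (τ D.al + τ D.be) γ hγ1 hε0' hε8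
  obtain ⟨C1, z, hC1, hzc, hzp, hz⟩ := exists_vertex hD τ (fun j => some (k j).castSucc) hη0
  have hC2 : 0 ≤ C1 / η := div_nonneg hC1 hη0.le
  set G : ℝ := |2 * Real.log ‖τ D.al - τ D.be‖| with hG
  have hG2 : 0 ≤ G / η := div_nonneg (abs_nonneg _) hη0.le
  refine ⟨M1 + C1 / η + G / η, by linarith, fun lam hlam => ?_⟩
  set q : ℝ := -Real.log ‖τ lam‖ with hq
  have hq0 : 0 < q := by linarith
  have hl0 : τ lam ≠ 0 := by
    intro h0
    rw [hq, h0, norm_zero, Real.log_zero, neg_zero] at hq0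
    exact lt_irrefl _ hq0
  have hCq : C1 ≤ η * q := by
    have h1 : C1 / η ≤ q := by linarith
    rw [div_le_iff₀ hη0] at h1
    linarith
  have hGq : G ≤ η * q := by
    have h1 : G / η ≤ q := by linarith
    rw [div_le_iff₀ hη0] at h1
    linarith
  have hz' := hz q hq0 hCq
  have hP := hPP τ q η hη0.le z hz'
  have hc0 : (τ D.al - τ D.be) ^ 2 / τ lam ≠ 0 := div_ne_zero (pow_ne_zero _ hne) hl0
  have hF : Est q ε0 1 (fun j => -Ω j)
      fun θ => (τ D.al - τ D.be) ^ 2 / τ lam * (PP τ D (z θ))⁻¹ := by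
    refine ((Est.const (x := 1) (ε := η) hc0 ?_).mul hP.inv).cast (by linarith) (by ring) ?_ rfl
    · rw [norm_div, norm_pow, Real.log_div (pow_ne_zero _ (norm_ne_zero_iff.2 hne))
        (norm_ne_zero_iff.2 hl0), Real.log_pow]
      have e : (((2 : ℕ) : ℝ) * Real.log ‖τ D.al - τ D.be‖ - Real.log ‖τ lam‖) / q - 1 =
          2 * Real.log ‖τ D.al - τ D.be‖ / q := by
        have : Real.log ‖τ lam‖ = -q := by rw [hq]; ring
        rw [this]
        push_cast
        field_simp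
        ring
      rw [e, abs_div, abs_of_pos hq0, div_le_iff₀ hq0]
      exact hGq
    · funext j
      ring
  obtain ⟨u, hu1, hup, hu2, hu3⟩ := hu q (by linarith) _ hF fun θ i => by simp only [hzp]
  have hz0 : ∀ θ j, z θ j ≠ 0 := by
    intro θ j
    have h1 := (hz' j none).good.ne_zero θ
    have h2 : z θ j - τ 0 ≠ 0 := h1
    rwa [map_zero, sub_zero] at h2
  have hza : ∀ θ j i, z θ j - τ (D.a j i) ≠ 0 := fun θ j i => (hz' j (some i)).good.ne_zero θ
  have hu0 : ∀ θ, u θ ≠ 0 := hu1.good.ne_zero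
  have hn1 : ‖τ D.al / γ‖ = 1 := by rw [norm_div, hD.norm_al, hγ1, div_one]
  have hn2 : ‖τ D.be / γ‖ = 1 := by rw [norm_div, hD.norm_be, hγ1, div_one]
  have hA1 := hu3 _ hn1
  have hB1 := hu3 _ hn2
  have hpt := fun θ => pt_small (lam := lam) (z := z θ) hγ0 hal hne hγ2 (hu0 θ)
    (hF.good.ne_zero θ) (by
      have h1 := hP.good.ne_zero θ
      show (τ D.al - τ D.be) ^ 2 / τ lam * (PP τ D (z θ))⁻¹ * (τ lam * PP τ D (z θ)) = _
      have h2 : PP τ D (z θ) ≠ 0 := h1
      field_simp)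
    (hu2 θ) (hA1.good.ne_zero θ) (hB1.good.ne_zero θ) (hz0 θ) (hza θ)
  have hx := fun θ => (hpt θ).1
  have hZ : Est q (ε0 + ε0) 0 (fun _ => 0)
      fun θ => τ D.al * ((1 - τ D.be / γ * (u θ)⁻¹) / (1 - τ D.al / γ * (u θ)⁻¹)) := by
    refine ((Est.const (x := 0) (ε := 0) hal ?_).mul (hB1.div hA1)).cast (by linarith) (by ring)
      ?_ rfl
    · rw [hD.norm_al, Real.log_one, zero_div, sub_zero, abs_zero]
    · funext j
      ring
  have hpc : ContDiff ℝ 2 fun θ => (Fin.cons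
      (τ D.al * ((1 - τ D.be / γ * (u θ)⁻¹) / (1 - τ D.al / γ * (u θ)⁻¹))) (z θ) :
      Fin (n + 1) → ℂ) :=
    contDiff_cons hZ.good.smooth hzc
  have hpp : ∀ θ i, (Fin.cons (τ D.al * ((1 - τ D.be / γ * (u (θ + Pi.single i 1))⁻¹) /
      (1 - τ D.al / γ * (u (θ + Pi.single i 1))⁻¹))) (z (θ + Pi.single i 1)) :
      Fin (n + 1) → ℂ) = Fin.cons
      (τ D.al * ((1 - τ D.be / γ * (u θ)⁻¹) / (1 - τ D.al / γ * (u θ)⁻¹))) (z θ) :=
    fun θ i => by rw [hup, hzp]
  refine ⟨mkU _ hpc hpp hx, fun θ x => mkU_ucst _ hpc hpp hx θ x, fun o => ?_⟩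
  rw [Torus.reg_symb]
  rcases o with _ | k'
  · have h1 := hreg2 q hq0.ne' (fun l => (mkU _ hpc hpp hx).fn
      (uent lam D none l : UOpen lam D)) ?_ ?_
    · simp only [zero_mul] at h1
      rw [if_neg (by simp)]
      exact h1
    · show Est q δ2 0 _ ((mkU _ hpc hpp hx).fn (ux lam D 0 : UOpen lam D))
      rw [mkU_ux]
      exact hZ.cast (by linarith) rfl rfl rfl
    · intro l
      show Est q δ2 0 _ ((mkU _ hpc hpp hx).fn (ux lam D l.succ : UOpen lam D))
      rw [mkU_ux]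
      refine (hz' l none).cast (by linarith) rfl ?_ ?_
      · funext i
        simp
      · funext θ
        show z θ l - τ 0 = z θ l
        rw [map_zero, sub_zero]
  · have h1 := hregk k' q hq0.ne' (fun l => (mkU _ hpc hpp hx).fn
      (uent lam D (some k') l : UOpen lam D)) ?_ ?_
    · have e : (-1 : ℝ) * ∏ j, (if k j = k' j then (1 : ℝ) else 0) =
          if some k' = some k then -1 else 0 := by
        by_cases hkk : k' = k
        · subst hkk
          simp
        · rw [if_neg (by simpa using hkk)]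
          obtain ⟨j, hj⟩ := Function.ne_iff.1 hkk
          rw [Finset.prod_eq_zero (Finset.mem_univ j) (if_neg fun h => hj h.symm), mul_zero]
      rw [e] at h1
      exact h1
    · show Est q (δk k') (-1) _ ((mkU _ hpc hpp hx).fn
        ((ual lam D / ube lam D : (UOpen lam D)ˣ) : UOpen lam D))
      rw [fn_div, mkU_ual, mkU_ube]
      refine ((Est.const (x := 0) (ε := 0) (div_ne_zero hal hγ0) ?_).mul hu1.inv).cast ?_
        (by ring) ?_ ?_
      · rw [hn1, Real.log_one, zero_div, sub_zero, abs_zero]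
      · have := hδle k'
        linarith
      · funext j
        ring
      · funext θ
        show τ D.al / γ * (u θ)⁻¹ =
          (τ D.al * ((1 - τ D.be / γ * (u θ)⁻¹) / (1 - τ D.al / γ * (u θ)⁻¹)) - τ D.al) /
          (τ D.al * ((1 - τ D.be / γ * (u θ)⁻¹) / (1 - τ D.al / γ * (u θ)⁻¹)) - τ D.be)
        rw [(hpt θ).2.1, (hpt θ).2.2, mul_div_cancel_left₀]
        exact div_ne_zero hne (hA1.good.ne_zero θ)
    · intro l
      show Est q (δk k') 0 _ ((mkU _ hpc hpp hx).fn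
        ((ua lam D l (k' l).castSucc / ua lam D l (Fin.last (D.r l)) : (UOpen lam D)ˣ) :
        UOpen lam D))
      rw [fn_div, mkU_ua, mkU_ua]
      refine ((hz' l (some (k' l).castSucc)).div (hz' l (some (Fin.last (D.r l))))).cast
        ?_ (by ring) ?_ rfl
      · have := hδle k'
        linarith
      · funext i
        have hlast : (k l).castSucc ≠ Fin.last (D.r l) := (Fin.castSucc_lt_last _).ne
        by_cases hil : i = l
        · simp [hil, hlast]
        · simp [hil]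

end Pool.Agent.TH333.UP
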