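import Pool.Agent.TH333.CY.Tori
set_option autoImplicit false

/-!
The hypersurfaces `(z_0 - α) (z_0 - β) ∏_j ∏_i (z_j - a_{j,i}) = λ z_0 ∏_j z_j^{m_j}`, their
coordinate rings, the symbols, and evaluation at complex points.
-/

namespace Pool.Agent.TH333.UP

open Pool.Agent.TH826.MK (KQ symb Unramified Torus)

/-- The data: the numbers `r_j`, the exponents `m_j`, the `r_j + 1` elements `a_{j,i}` of `K`
(`1 ≤ j ≤ n`), and the elements `α`, `β` of `K`. -/
structure Dat (K : Type*) (n : ℕ) where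
  /-- the numbers `r_j` -/
  r : Fin n → ℕ
  /-- the exponents `m_j` -/
  m : Fin n → ℕ
  /-- the `a_{j,i}` -/
  a : (j : Fin n) → Fin (r j + 1) → K
  /-- the element `α` -/
  al : K
  /-- the element `β` -/
  be : K

section Ring

variable {K : Type*} [Field K] {n : ℕ} (lam : K) (D : Dat K n)

/-- The polynomial `(z_0 - α) (z_0 - β) ∏_j ∏_i (z_j - a_{j,i})`. -/
noncomputable def ufac : MvPolynomial (Fin (n + 1)) K :=
  (MvPolynomial.X 0 - MvPolynomial.C D.al) * (MvPolynomial.X 0 - MvPolynomial.C D.be) *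
    ∏ j, ∏ i, (MvPolynomial.X j.succ - MvPolynomial.C (D.a j i))

/-- The equation `(z_0 - α) (z_0 - β) ∏_j ∏_i (z_j - a_{j,i}) - λ z_0 ∏_j z_j^{m_j}`. -/
noncomputable def ueqn : MvPolynomial (Fin (n + 1)) K :=
  ufac D - MvPolynomial.C lam * (MvPolynomial.X 0 * ∏ j, MvPolynomial.X j.succ ^ D.m j)

/-- The coordinate ring of the hypersurface
`(z_0 - α) (z_0 - β) ∏_j ∏_i (z_j - a_{j,i}) = λ z_0 ∏_j z_j^{m_j}`. -/
def URing : Type _ := MvPolynomial (Fin (n + 1)) K ⧸ Ideal.span {ueqn lam D}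

noncomputable instance : CommRing (URing lam D) := Ideal.Quotient.commRing (Ideal.span {ueqn lam D})

/-- The polynomials as functions on the hypersurface. -/
noncomputable def upol : MvPolynomial (Fin (n + 1)) K →+* URing lam D :=
  Ideal.Quotient.mk (Ideal.span {ueqn lam D})

/-- The product of the `z_j` and of all linear factors `z_0 - α`, `z_0 - β`, `z_j - a_{j,i}`. -/
noncomputable def udel : MvPolynomial (Fin (n + 1)) K := (∏ j, MvPolynomial.X j) * ufac D

/-- The polynomial `δ T - 1`, `δ` the product of the `z_j` and of the linear factors. -/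
noncomputable def ueqnO : Polynomial (URing lam D) :=
  Polynomial.C (upol lam D (udel D)) * Polynomial.X - 1

/-- The coordinate ring of the open part at which no `z_j` and no linear factor vanishes (if `λ` is
not `0`, this is the part at which no `z_j` vanishes): the ring obtained from the coordinate ring of
the hypersurface by adjoining `T` with `δ T = 1`. -/
def UOpen : Type _ := AdjoinRoot (ueqnO lam D)

noncomputable instance : CommRing (UOpen lam D) := AdjoinRoot.instCommRing (ueqnO lam D)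

/-- The restriction of functions to the open part. -/
noncomputable def toU : URing lam D →+* UOpen lam D := AdjoinRoot.of (ueqnO lam D)

/-- The constants. -/
noncomputable def ucst : K →+* UOpen lam D :=
  (toU lam D).comp ((upol lam D).comp MvPolynomial.C)

theorem upol_ueqn : upol lam D (ueqn lam D) = 0 :=
  Ideal.Quotient.eq_zero_iff_mem.2 (Ideal.subset_span rfl)

theorem isUnit_udel : IsUnit (toU lam D (upol lam D (udel D))) := by
  have h := AdjoinRoot.mk_self (f := ueqnO lam D)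
  have h2 : AdjoinRoot.mk (ueqnO lam D) (ueqnO lam D) =
      AdjoinRoot.of (ueqnO lam D) (upol lam D (udel D)) * AdjoinRoot.root (ueqnO lam D) - 1 := by
    conv_lhs => rw [show AdjoinRoot.mk (ueqnO lam D) (ueqnO lam D) =
      AdjoinRoot.mk (ueqnO lam D)
      (Polynomial.C (upol lam D (udel D)) * Polynomial.X - 1) from rfl]
    rw [map_sub, map_mul, map_one, AdjoinRoot.mk_X, AdjoinRoot.mk_C]
  rw [h2, sub_eq_zero] at h
  exact IsUnit.of_mul_eq_one _ h

theorem isUnit_of_dvd {p : MvPolynomial (Fin (n + 1)) K} (h : p ∣ udel D) :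
    IsUnit (toU lam D (upol lam D p)) :=
  isUnit_of_dvd_unit (map_dvd _ (map_dvd _ h)) (isUnit_udel lam D)

theorem isUnit_x (j : Fin (n + 1)) : IsUnit (toU lam D (upol lam D (MvPolynomial.X j))) :=
  isUnit_of_dvd lam D (Dvd.dvd.mul_right (Finset.dvd_prod_of_mem
    (fun j => (MvPolynomial.X j : MvPolynomial (Fin (n + 1)) K)) (Finset.mem_univ j)) _)

theorem isUnit_al :
    IsUnit (toU lam D (upol lam D (MvPolynomial.X 0 - MvPolynomial.C D.al))) :=
  isUnit_of_dvd lam D (Dvd.dvd.mul_left (Dvd.dvd.mul_right (Dvd.intro _ rfl) _) _)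

theorem isUnit_be :
    IsUnit (toU lam D (upol lam D (MvPolynomial.X 0 - MvPolynomial.C D.be))) :=
  isUnit_of_dvd lam D (Dvd.dvd.mul_left (Dvd.dvd.mul_right (Dvd.intro_left _ rfl) _) _)

theorem isUnit_a (j : Fin n) (i : Fin (D.r j + 1)) :
    IsUnit (toU lam D (upol lam D (MvPolynomial.X j.succ - MvPolynomial.C (D.a j i)))) := by
  refine isUnit_of_dvd lam D (Dvd.dvd.mul_left (Dvd.dvd.mul_left ?_ _) _)
  refine (Finset.dvd_prod_of_mem (fun i => (MvPolynomial.X j.succ - MvPolynomial.C (D.a j i) :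
    MvPolynomial (Fin (n + 1)) K)) (Finset.mem_univ i)).trans ?_
  exact Finset.dvd_prod_of_mem (fun j => ∏ i, (MvPolynomial.X j.succ -
    MvPolynomial.C (D.a j i) : MvPolynomial (Fin (n + 1)) K)) (Finset.mem_univ j)

/-- The unit `z_j`. -/
noncomputable def ux (j : Fin (n + 1)) : (UOpen lam D)ˣ := (isUnit_x lam D j).unit

/-- The unit `z_0 - α`. -/
noncomputable def ual : (UOpen lam D)ˣ := (isUnit_al lam D).unit

/-- The unit `z_0 - β`. -/
noncomputable def ube : (UOpen lam D)ˣ := (isUnit_be lam D).unit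

/-- The unit `z_j - a_{j,i}`. -/
noncomputable def ua (j : Fin n) (i : Fin (D.r j + 1)) : (UOpen lam D)ˣ := (isUnit_a lam D j i).unit

/-- The entries of the symbols: `z_0, ..., z_n` (index `none`), and
`(z_0 - α) / (z_0 - β)`, `(z_j - a_{j,k_j}) / (z_j - a_{j,r_j})`, `1 ≤ j ≤ n` (index
`some k`, `k_j < r_j`). -/
noncomputable def uent : Option ((j : Fin n) → Fin (D.r j)) → Fin (n + 1) → (UOpen lam D)ˣ
  | none => ux lam D
  | some k => Fin.cons (ual lam D / ube lam D) fun j =>
      ua lam D j (k j).castSucc / ua lam D j (Fin.last (D.r j))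

theorem uent_none : uent lam D none = ux lam D := rfl

theorem uent_zero (k : (j : Fin n) → Fin (D.r j)) :
    uent lam D (some k) 0 = ual lam D / ube lam D := rfl

theorem uent_succ (k : (j : Fin n) → Fin (D.r j)) (j : Fin n) :
    uent lam D (some k) j.succ = ua lam D j (k j).castSucc / ua lam D j (Fin.last (D.r j)) := rfl

end Ring

section Lift

variable {K : Type*} [Field K] {n : ℕ} {lam : K} {D : Dat K n} {S : Type*} [Field S]

/-- The extension of a homomorphism with `δ ↦ g ≠ 0` to the ring of the open part. -/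
noncomputable def liftU (g : URing lam D →+* S) (hg : g (upol lam D (udel D)) ≠ 0) :
    UOpen lam D →+* S :=
  AdjoinRoot.lift g (g (upol lam D (udel D)))⁻¹ (by
    unfold ueqnO
    simp only [Polynomial.eval₂_sub, Polynomial.eval₂_mul, Polynomial.eval₂_X,
      Polynomial.eval₂_C, Polynomial.eval₂_one]
    rw [mul_inv_cancel₀ hg, sub_self])

theorem liftU_toU (g : URing lam D →+* S) (hg : g (upol lam D (udel D)) ≠ 0)
    (b : URing lam D) : liftU g hg (toU lam D b) = g b :=
  AdjoinRoot.lift_of _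

theorem liftU_mk (g : URing lam D →+* S) (hg : g (upol lam D (udel D)) ≠ 0)
    (p : Polynomial (URing lam D)) :
    liftU g hg (AdjoinRoot.mk (ueqnO lam D) p : AdjoinRoot (ueqnO lam D)) =
      p.eval₂ g (g (upol lam D (udel D)))⁻¹ :=
  AdjoinRoot.lift_mk _ p

end Lift

section Ev

open Pool.Agent.TH826.MK

variable {K : Type*} [Field K] {n d : ℕ} {σ : K →+* ℂ} {lam : K} {D : Dat K n}

theorem eval_ufac (σ : K →+* ℂ) (D : Dat K n) (p : Fin (n + 1) → ℂ) :
    MvPolynomial.eval₂ σ p (ufac D) =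
      (p 0 - σ D.al) * (p 0 - σ D.be) * ∏ j, ∏ i, (p j.succ - σ (D.a j i)) := by
  unfold ufac
  simp only [MvPolynomial.eval₂_mul, MvPolynomial.eval₂_sub, MvPolynomial.eval₂_X,
    MvPolynomial.eval₂_C, MvPolynomial.eval₂_prod]

theorem eval_ueqn (σ : K →+* ℂ) (lam : K) (D : Dat K n) (p : Fin (n + 1) → ℂ) :
    MvPolynomial.eval₂ σ p (ueqn lam D) =
      (p 0 - σ D.al) * (p 0 - σ D.be) * ∏ j, ∏ i, (p j.succ - σ (D.a j i)) -
      σ lam * (p 0 * ∏ j, p j.succ ^ D.m j) := by
  unfold ueqn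
  rw [MvPolynomial.eval₂_sub, eval_ufac]
  simp only [MvPolynomial.eval₂_mul, MvPolynomial.eval₂_X,
    MvPolynomial.eval₂_C, MvPolynomial.eval₂_prod, MvPolynomial.eval₂_pow]

/-- The complex points of the open part. -/
def UPt (σ : K →+* ℂ) (lam : K) (D : Dat K n) (p : Fin (n + 1) → ℂ) : Prop :=
  MvPolynomial.eval₂ σ p (ueqn lam D) = 0 ∧ MvPolynomial.eval₂ σ p (udel D) ≠ 0

/-- evaluation of the regular functions on the hypersurface -/
noncomputable def UPt.evB {p : Fin (n + 1) → ℂ} (hx : UPt σ lam D p) :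
    URing lam D →+* ℂ :=
  Ideal.Quotient.lift (Ideal.span {ueqn lam D}) (MvPolynomial.eval₂Hom σ p) (by
    intro q hq
    have hle : Ideal.span {ueqn lam D} ≤ RingHom.ker (MvPolynomial.eval₂Hom σ p) := by
      rw [Ideal.span_le]
      rintro q rfl
      exact hx.1
    exact hle hq)

theorem UPt.evB_upol {p : Fin (n + 1) → ℂ} (hx : UPt σ lam D p)
    (q : MvPolynomial (Fin (n + 1)) K) :
    hx.evB (upol lam D q) = MvPolynomial.eval₂Hom σ p q :=
  Ideal.Quotient.lift_mk _ _ _

theorem UPt.evB_ne {p : Fin (n + 1) → ℂ} (hx : UPt σ lam D p) :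
    hx.evB (upol lam D (udel D)) ≠ 0 := by
  rw [hx.evB_upol]
  exact hx.2

/-- evaluation of the regular functions on the open part -/
noncomputable def UPt.evA {p : Fin (n + 1) → ℂ} (hx : UPt σ lam D p) :
    UOpen lam D →+* ℂ :=
  liftU hx.evB hx.evB_ne

theorem UPt.evA_pol {p : Fin (n + 1) → ℂ} (hx : UPt σ lam D p)
    (q : MvPolynomial (Fin (n + 1)) K) :
    hx.evA (toU lam D (upol lam D q)) = MvPolynomial.eval₂ σ p q := by
  unfold UPt.evA
  rw [liftU_toU, hx.evB_upol]
  rfl

theorem UPt.evA_congr {p q : Fin (n + 1) → ℂ} (hx : UPt σ lam D p)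
    (hy : UPt σ lam D q) (h : p = q) : hx.evA = hy.evA := by
  subst h
  rfl

theorem contDiff_evA {p : (Fin d → ℝ) → (Fin (n + 1) → ℂ)} (hc : ContDiff ℝ 2 p)
    (hx : ∀ θ, UPt σ lam D (p θ)) (h : UOpen lam D) :
    ContDiff ℝ 2 fun θ => (hx θ).evA h := by
  have hxk : ∀ k, ContDiff ℝ 2 fun θ => p θ k := fun k => contDiff_pi.1 hc k
  have hmv : ∀ q : MvPolynomial (Fin (n + 1)) K,
      ContDiff ℝ 2 fun θ => MvPolynomial.eval₂Hom σ (p θ) q := by
    intro q
    induction q using MvPolynomial.induction_on with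
    | C c => simpa using contDiff_const
    | add p q hp hq => simpa using hp.add hq
    | mul_X p k hp => simpa using hp.mul (hxk k)
  have hB : ∀ b : URing lam D, ContDiff ℝ 2 fun θ => (hx θ).evB b := by
    intro b
    obtain ⟨q, hq⟩ := Ideal.Quotient.mk_surjective b
    have e : (fun θ => (hx θ).evB b) = fun θ => MvPolynomial.eval₂Hom σ (p θ) q := by
      funext θ
      rw [← hq]
      exact (hx θ).evB_upol q
    rw [e]
    exact hmv q
  obtain ⟨q, hq⟩ := AdjoinRoot.mk_surjective (g := ueqnO lam D) h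
  have e : (fun θ => (hx θ).evA h) = fun θ =>
      ∑ i ∈ Finset.range (q.natDegree + 1), (hx θ).evB (q.coeff i) *
        ((hx θ).evB (upol lam D (udel D)))⁻¹ ^ i := by
    funext θ
    rw [← hq]
    unfold UPt.evA
    rw [liftU_mk, Polynomial.eval₂_eq_sum_range]
  rw [e]
  exact ContDiff.sum fun i _ => (hB _).mul
    (((hB _).inv fun θ => (hx θ).evB_ne).pow i)

/-- a torus in the hypersurface -/
noncomputable def mkU (p : (Fin d → ℝ) → (Fin (n + 1) → ℂ)) (hc : ContDiff ℝ 2 p)
    (hp : ∀ θ i, p (θ + Pi.single i 1) = p θ)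
    (hx : ∀ θ, UPt σ lam D (p θ)) : Torus (UOpen lam D) d where
  e θ := (hx θ).evA
  smooth h := contDiff_evA hc hx h
  periodic θ i := UPt.evA_congr _ _ (hp θ i)

variable (p : (Fin d → ℝ) → (Fin (n + 1) → ℂ)) (hc : ContDiff ℝ 2 p)
    (hp : ∀ θ i, p (θ + Pi.single i 1) = p θ)
    (hx : ∀ θ, UPt σ lam D (p θ))

theorem mkU_ucst (θ : Fin d → ℝ) (y : K) : (mkU p hc hp hx).e θ (ucst lam D y) = σ y := by
  show (hx θ).evA (toU lam D (upol lam D (MvPolynomial.C y))) = _
  rw [UPt.evA_pol, MvPolynomial.eval₂_C]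

theorem mkU_ux (j : Fin (n + 1)) :
    (mkU p hc hp hx).fn (ux lam D j : UOpen lam D) = fun θ => p θ j := by
  funext θ
  show (hx θ).evA (toU lam D (upol lam D (MvPolynomial.X j))) = _
  rw [UPt.evA_pol, MvPolynomial.eval₂_X]

theorem mkU_ual :
    (mkU p hc hp hx).fn (ual lam D : UOpen lam D) = fun θ => p θ 0 - σ D.al := by
  funext θ
  show (hx θ).evA (toU lam D (upol lam D (MvPolynomial.X 0 - MvPolynomial.C D.al))) = _
  rw [UPt.evA_pol, MvPolynomial.eval₂_sub, MvPolynomial.eval₂_X, MvPolynomial.eval₂_C]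

theorem mkU_ube :
    (mkU p hc hp hx).fn (ube lam D : UOpen lam D) = fun θ => p θ 0 - σ D.be := by
  funext θ
  show (hx θ).evA (toU lam D (upol lam D (MvPolynomial.X 0 - MvPolynomial.C D.be))) = _
  rw [UPt.evA_pol, MvPolynomial.eval₂_sub, MvPolynomial.eval₂_X, MvPolynomial.eval₂_C]

theorem mkU_ua (j : Fin n) (i : Fin (D.r j + 1)) :
    (mkU p hc hp hx).fn (ua lam D j i : UOpen lam D) = fun θ => p θ j.succ - σ (D.a j i) := by
  funext θ
  show (hx θ).evA (toU lam D (upol lam D (MvPolynomial.X j.succ -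
    MvPolynomial.C (D.a j i)))) = _
  rw [UPt.evA_pol, MvPolynomial.eval₂_sub, MvPolynomial.eval₂_X, MvPolynomial.eval₂_C]

end Ev

end Pool.Agent.TH333.UP
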