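import Pool.Agent.TH333.UP.Dom
import Pool.Agent.TH333.UP.Est
set_option autoImplicit false

/-!
The tori near the vertices, and the regulators of the symbols on them.
-/

namespace Pool.Agent.TH333.UP

open Pool.Agent.TH826.MK

variable {K : Type*} [Field K] {n : ℕ} {D : Dat K n}

section vertex

/-- the element `0` and the `a_{j,i}` -/
def bb (D : Dat K n) (j : Fin n) : Option (Fin (D.r j + 1)) → K
  | none => 0
  | some i => D.a j i

theorem bb_injective (hD : D.Ok) (j : Fin n) : Function.Injective (bb D j) := by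
  intro o o' h
  rcases o with _ | i <;> rcases o' with _ | i'
  · rfl
  · exact absurd h.symm (hD.a_ne j i')
  · exact absurd h (hD.a_ne j i)
  · exact congrArg some (hD.inj j h)

/-- the functions `z_j - b` near the vertex `o` -/
noncomputable def HV (ρ : K →+* ℂ) (D : Dat K n) (o : (j : Fin n) → Option (Fin (D.r j + 1)))
    (e : Σ j : Fin n, Option (Fin (D.r j + 1))) (w : Fin n → ℂ) : ℂ :=
  w e.1 + (ρ (bb D e.1 (o e.1)) - ρ (bb D e.1 e.2))

theorem exists_vertex (hD : D.Ok) (ρ : K →+* ℂ) (o : (j : Fin n) → Option (Fin (D.r j + 1)))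
    {ε : ℝ} (hε : 0 < ε) :
    ∃ (C : ℝ) (z : (Fin n → ℝ) → (Fin n → ℂ)), 0 ≤ C ∧ ContDiff ℝ 2 z ∧
      (∀ θ i, z (θ + Pi.single i 1) = z θ) ∧
      ∀ q : ℝ, 0 < q → C ≤ ε * q → ∀ (j : Fin n) (o' : Option (Fin (D.r j + 1))),
        Est q ε 0 (fun i => if i = j ∧ o j = o' then 1 else 0)
          fun θ => z θ j - ρ (bb D j o') := by
  classical
  obtain ⟨C1, W, hC1, hWc, hWp, hWg, hWest⟩ := Pool.Agent.TH826.DC.exists_circles
    (H := HV ρ D o) (T := fun j => (⟨j, o j⟩ : Σ j : Fin n, Option (Fin (D.r j + 1))))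
    (fun i j h => congrArg Sigma.fst h)
    (fun e => (contDiff_apply ℂ ℂ e.1).add contDiff_const)
    (fun j w => by
      show w j + (ρ (bb D j (o j)) - ρ (bb D j (o j))) = w j
      rw [sub_self, add_zero])
    (fun e he => by
      show (0 : ℂ) + (ρ (bb D e.1 (o e.1)) - ρ (bb D e.1 e.2)) ≠ 0
      rw [zero_add, sub_ne_zero]
      intro h
      have h1 := bb_injective hD e.1 (ρ.injective h)
      refine he e.1 ?_
      rw [h1]) hε
  refine ⟨C1, fun θ j => W θ j + ρ (bb D j (o j)), hC1,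
    contDiff_pi.2 fun j => (contDiff_pi.1 hWc j).add contDiff_const, fun θ i => ?_,
    fun q hq hCq j o' => ?_⟩
  · simp only [hWp]
  · have e : (fun θ => W θ j + ρ (bb D j (o j)) - ρ (bb D j o')) =
        fun θ => HV ρ D o ⟨j, o'⟩ (W θ) := by
      funext θ
      unfold HV
      ring
    have e2 : (fun i => if i = j ∧ o j = o' then 1 else 0 : Fin n → ℝ) =
        Pool.Agent.TH826.DC.wT (fun j => (⟨j, o j⟩ : Σ j : Fin n, Option (Fin (D.r j + 1))))
          ⟨j, o'⟩ := by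
      funext i
      unfold Pool.Agent.TH826.DC.wT
      by_cases hij : i = j
      · subst hij
        by_cases ho : o i = o'
        · rw [if_pos ⟨rfl, ho⟩, if_pos (congrArg (Sigma.mk i) ho)]
        · rw [if_neg fun h => ho h.2, if_neg]
          intro h
          exact ho (eq_of_heq (Sigma.mk.inj h).2)
      · rw [if_neg fun h => hij h.1, if_neg]
        intro h
        exact hij (Sigma.mk.inj h).1
    show Est q ε 0 _ fun θ => W θ j + ρ (bb D j (o j)) - ρ (bb D j o')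
    rw [e, e2]
    refine ⟨hWg _, fun θ => ?_, fun i θ => (hWest _ θ).2 i⟩
    rw [sub_zero, abs_div, abs_of_pos hq, div_le_iff₀ hq]
    exact (hWest _ θ).1.trans hCq

end vertex

section prod

/-- the function `∏_j z_j^{m_j} / ∏_i (z_j - a_{j,i})` -/
noncomputable def PP (ρ : K →+* ℂ) (D : Dat K n) (z : Fin n → ℂ) : ℂ :=
  ∏ j, (z j ^ D.m j * (∏ i, (z j - ρ (D.a j i)))⁻¹)

theorem PP_mul (ρ : K →+* ℂ) (z : Fin n → ℂ) (h : ∀ j i, z j - ρ (D.a j i) ≠ 0) :
    PP ρ D z * ∏ j, ∏ i, (z j - ρ (D.a j i)) = ∏ j, z j ^ D.m j := by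
  unfold PP
  rw [← Finset.prod_mul_distrib]
  refine Finset.prod_congr rfl fun j _ => ?_
  rw [mul_assoc, inv_mul_cancel₀ (Finset.prod_ne_zero_iff.2 fun i _ => h j i), mul_one]

theorem est_PP (D : Dat K n) (o : (j : Fin n) → Option (Fin (D.r j + 1))) :
    ∃ (A : ℝ) (Ω : Fin n → ℝ), 0 < A ∧ ∀ (ρ : K →+* ℂ) (q ε : ℝ), 0 ≤ ε →
      ∀ z : (Fin n → ℝ) → (Fin n → ℂ),
        (∀ (j : Fin n) (o' : Option (Fin (D.r j + 1))),
          Est q ε 0 (fun i => if i = j ∧ o j = o' then 1 else 0)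
            fun θ => z θ j - ρ (bb D j o')) →
        Est q (A * ε) 0 Ω fun θ => PP ρ D (z θ) := by
  classical
  refine ⟨∑ j : Fin n, ((D.m j : ℝ) + ∑ _i : Fin (D.r j + 1), 1) + 1,
    fun l => ∑ j : Fin n, ((D.m j : ℝ) * (if l = j ∧ o j = none then 1 else 0) +
      -∑ i : Fin (D.r j + 1), if l = j ∧ o j = some i then 1 else 0), ?_, ?_⟩
  · have h1 : 0 ≤ ∑ j : Fin n, ((D.m j : ℝ) + ∑ _i : Fin (D.r j + 1), (1 : ℝ)) :=
      Finset.sum_nonneg fun j _ => by positivity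
    linarith
  · intro ρ q ε hε z h
    have h1 : ∀ j : Fin n, Est q (D.m j * ε) (D.m j * 0)
        (fun l => (D.m j : ℝ) * (if l = j ∧ o j = none then 1 else 0))
        fun θ => z θ j ^ D.m j := by
      intro j
      refine ((h j none).pow (D.m j)).cast le_rfl rfl rfl ?_
      funext θ
      show (z θ j - ρ 0) ^ D.m j = _
      rw [map_zero, sub_zero]
    have h2 : ∀ j : Fin n, Est q (∑ _i : Fin (D.r j + 1), ε) (-∑ _i : Fin (D.r j + 1), 0)
        (fun l => -∑ i : Fin (D.r j + 1), if l = j ∧ o j = some i then 1 else 0)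
        fun θ => (∏ i, (z θ j - ρ (D.a j i)))⁻¹ := fun j =>
      (Est.prod Finset.univ fun i _ => h j (some i)).inv
    refine (Est.prod Finset.univ fun j _ => (h1 j).mul (h2 j)).cast ?_ ?_ rfl rfl
    · have e : ∑ j : Fin n, ((D.m j : ℝ) * ε + ∑ _i : Fin (D.r j + 1), ε) =
          (∑ j : Fin n, ((D.m j : ℝ) + ∑ _i : Fin (D.r j + 1), 1)) * ε := by
        rw [Finset.sum_mul]
        refine Finset.sum_congr rfl fun j _ => ?_
        rw [add_mul, Finset.sum_mul]
        simp only [one_mul]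
      rw [e]
      refine mul_le_mul_of_nonneg_right ?_ hε
      linarith
    · simp

end prod

section points

/-- A point of the hypersurface over the large absolute value. -/
theorem pt_large {σ : K →+* ℂ} {lam : K} {γ u F : ℂ} {z : Fin n → ℂ} (hγ : γ ≠ 0)
    (hγ2 : γ ^ 2 = σ D.al * σ D.be) (hu : u ≠ 0) (hF0 : F ≠ 0)
    (hF : F = σ lam * PP σ D z) (hu2 : γ * (u ^ 2 + 1) = (F + (σ D.al + σ D.be)) * u)
    (hz : ∀ j, z j ≠ 0) (hza : ∀ j i, z j - σ (D.a j i) ≠ 0) :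
    UPt σ lam D (Fin.cons (γ * u) z) := by
  have h1 : (γ * u - σ D.al) * (γ * u - σ D.be) = γ * u * F := by
    linear_combination γ * hu2 + (- 1) * hγ2
  have h2 := PP_mul (D := D) σ z hza
  constructor
  · rw [eval_ueqn]
    simp only [Fin.cons_zero, Fin.cons_succ]
    rw [h1, ← h2, hF]
    ring
  · unfold udel
    rw [MvPolynomial.eval₂_mul, eval_ufac, MvPolynomial.eval₂_prod]
    simp only [MvPolynomial.eval₂_X]
    rw [Fin.prod_univ_succ]
    simp only [Fin.cons_zero, Fin.cons_succ]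
    rw [h1]
    refine mul_ne_zero (mul_ne_zero (mul_ne_zero hγ hu) (Finset.prod_ne_zero_iff.2 fun j _ => hz j))
      (mul_ne_zero (mul_ne_zero (mul_ne_zero hγ hu) hF0) ?_)
    exact Finset.prod_ne_zero_iff.2 fun j _ => Finset.prod_ne_zero_iff.2 fun i _ => hza j i

/-- A point of the hypersurface over the small absolute value. -/
theorem pt_small {σ : K →+* ℂ} {lam : K} {γ u F : ℂ} {z : Fin n → ℂ} (hγ : γ ≠ 0)
    (hal : σ D.al ≠ 0) (hne : σ D.al - σ D.be ≠ 0)
    (hγ2 : γ ^ 2 = σ D.al * σ D.be) (hu : u ≠ 0) (hF0 : F ≠ 0)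
    (hF : F * (σ lam * PP σ D z) = (σ D.al - σ D.be) ^ 2)
    (hu2 : γ * (u ^ 2 + 1) = (F + (σ D.al + σ D.be)) * u)
    (hA : 1 - σ D.al / γ * u⁻¹ ≠ 0) (hB : 1 - σ D.be / γ * u⁻¹ ≠ 0)
    (hz : ∀ j, z j ≠ 0) (hza : ∀ j i, z j - σ (D.a j i) ≠ 0) :
    UPt σ lam D (Fin.cons (σ D.al * ((1 - σ D.be / γ * u⁻¹) / (1 - σ D.al / γ * u⁻¹))) z) ∧
      σ D.al * ((1 - σ D.be / γ * u⁻¹) / (1 - σ D.al / γ * u⁻¹)) - σ D.al =
        (σ D.al - σ D.be) / (1 - σ D.al / γ * u⁻¹) * (σ D.al / γ * u⁻¹) ∧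
      σ D.al * ((1 - σ D.be / γ * u⁻¹) / (1 - σ D.al / γ * u⁻¹)) - σ D.be =
        (σ D.al - σ D.be) / (1 - σ D.al / γ * u⁻¹) := by
  have h1 : (γ * u - σ D.al) * (γ * u - σ D.be) = γ * u * F := by
    linear_combination γ * hu2 + (- 1) * hγ2
  have h2 := PP_mul (D := D) σ z hza
  have hA' : 1 - σ D.al / γ * u⁻¹ = (γ * u - σ D.al) / (γ * u) := by field_simp
  have hB' : 1 - σ D.be / γ * u⁻¹ = (γ * u - σ D.be) / (γ * u) := by field_simp
  rw [hA'] at hA ⊢
  rw [hB'] at hB ⊢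
  have nA : γ * u - σ D.al ≠ 0 := fun h => hA (by rw [h, zero_div])
  have nB : γ * u - σ D.be ≠ 0 := fun h => hB (by rw [h, zero_div])
  have e1 : σ D.al * ((γ * u - σ D.be) / (γ * u) / ((γ * u - σ D.al) / (γ * u))) - σ D.al =
      (σ D.al - σ D.be) / ((γ * u - σ D.al) / (γ * u)) * (σ D.al / γ * u⁻¹) := by
    field_simp
    ring
  have e2 : σ D.al * ((γ * u - σ D.be) / (γ * u) / ((γ * u - σ D.al) / (γ * u))) - σ D.be =
      (σ D.al - σ D.be) / ((γ * u - σ D.al) / (γ * u)) := by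
    field_simp
    ring
  have e3 : (σ D.al - σ D.be) / ((γ * u - σ D.al) / (γ * u)) * (σ D.al / γ * u⁻¹) *
      ((σ D.al - σ D.be) / ((γ * u - σ D.al) / (γ * u))) =
      σ lam * PP σ D z *
        (σ D.al * ((γ * u - σ D.be) / (γ * u) / ((γ * u - σ D.al) / (γ * u)))) := by
    field_simp
    rw [← hF]
    linear_combination (-(σ lam * PP σ D z)) * h1
  refine ⟨⟨?_, ?_⟩, e1, e2⟩
  · rw [eval_ueqn]
    simp only [Fin.cons_zero, Fin.cons_succ]
    rw [e1, e2, e3, ← h2]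
    ring
  · unfold udel
    rw [MvPolynomial.eval₂_mul, eval_ufac, MvPolynomial.eval₂_prod]
    simp only [MvPolynomial.eval₂_X]
    rw [Fin.prod_univ_succ]
    simp only [Fin.cons_zero, Fin.cons_succ]
    rw [e1, e2]
    refine mul_ne_zero (mul_ne_zero (mul_ne_zero hal (div_ne_zero hB hA))
      (Finset.prod_ne_zero_iff.2 fun j _ => hz j)) (mul_ne_zero (mul_ne_zero (mul_ne_zero
        (div_ne_zero hne hA) (mul_ne_zero (div_ne_zero hal hγ) (inv_ne_zero hu)))
        (div_ne_zero hne hA)) ?_)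
    exact Finset.prod_ne_zero_iff.2 fun j _ => Finset.prod_ne_zero_iff.2 fun i _ => hza j i

end points

end Pool.Agent.TH333.UP
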